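import Pool.Agent.H18LI.ELIM

/-!
# The infinite cyclic covering
-/

set_option autoImplicit false

namespace Pool.Agent.H18LI

open Function Pool.Agent.R655.LI

section LI

variable {G A : Type} [Group G] [Group A]

theorem locInd_of_injective (hA : LocInd A) (f : G →* A) (hf : Injective f) : LocInd G := by
  intro H hH hne
  refine Pool.Agent.TH625.LOG.LocInd.of_hom hA hH f fun hle => hne ?_
  rw [Subgroup.eq_bot_iff_forall]
  intro x hx
  exact hf ((MonoidHom.mem_ker.1 (hle hx)).trans (map_one f).symm)

theorem surj_of_hom [Group.FG G] (hA : LocInd A) (f : G →* A) (hf : ∃ x, f x ≠ 1) :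
    ∃ ψ : G →* Multiplicative ℤ, Surjective ψ := by
  have hT : (⊤ : Subgroup G).FG := Group.fg_def.1 inferInstance
  obtain ⟨ψ, hψ⟩ := Pool.Agent.TH625.LOG.LocInd.of_hom hA hT f (by
    intro h
    obtain ⟨x, hx⟩ := hf
    exact hx (MonoidHom.mem_ker.1 (h (Subgroup.mem_top x))))
  exact ⟨ψ.comp (Subgroup.topEquiv (G := G)).symm.toMonoidHom,
    hψ.comp (Subgroup.topEquiv (G := G)).symm.surjective⟩

theorem locInd_int : LocInd (Multiplicative ℤ) := by
  refine locInd_of_injective Pool.Agent.TH625.LOG.locInd_real
    (AddMonoidHom.toMultiplicative (Int.castAddHom ℝ)) ?_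
  intro a b h
  have h1 : ((Multiplicative.toAdd a : ℤ) : ℝ) = ((Multiplicative.toAdd b : ℤ) : ℝ) :=
    congrArg Multiplicative.toAdd h
  exact congrArg Multiplicative.ofAdd (Int.cast_injective h1)

theorem locInd_semidirect (φ : Multiplicative ℤ →* MulAut A) (hA : LocInd A) :
    LocInd (A ⋊[φ] Multiplicative ℤ) := by
  refine Pool.Agent.TH625.LOG.LocInd.ext locInd_int
    (SemidirectProduct.rightHom : A ⋊[φ] Multiplicative ℤ →* Multiplicative ℤ) ?_
  intro H hH hne hker
  have : Group.FG H := (Group.fg_iff_subgroup_fg H).2 hH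
  have hr : ∀ x : H, (x : A ⋊[φ] Multiplicative ℤ).right = 1 := fun x =>
    MonoidHom.mem_ker.1 (hker x.2)
  let f : H →* A :=
    { toFun := fun x => (x : A ⋊[φ] Multiplicative ℤ).left
      map_one' := rfl
      map_mul' := fun a b => by
        show ((a : A ⋊[φ] Multiplicative ℤ) * b).left = _
        rw [SemidirectProduct.mul_left, hr a, map_one]
        rfl }
  obtain ⟨ψ, hψ⟩ := surj_of_hom hA f (by
    by_contra hcon
    push Not at hcon
    apply hne
    rw [Subgroup.eq_bot_iff_forall]
    intro x hx
    refine SemidirectProduct.ext ?_ ?_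
    · exact hcon ⟨x, hx⟩
    · exact hr ⟨x, hx⟩)
  obtain ⟨x, hx⟩ := hψ (Multiplicative.ofAdd 1)
  refine ⟨ψ, x, ?_⟩
  rw [hx]
  intro h
  have h2 : (1 : ℤ) = 0 := h
  exact one_ne_zero h2

end LI

section cover

variable {V R : Type} (w : R → List (V × Bool)) (h : Pos w → ℤ) (S : Set R)

/-- the group of the infinite cyclic covering -/
abbrev NS : Type := PresentedGroup (Set.range fun i : S × ℤ => shiftWord w h i.1 i.2)

/-- the group of the complex -/
abbrev GS : Type := PresentedGroup (Set.range fun r : S => liftWord w h r)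

theorem lift_letter {X : Type} {B : Type} [Group B] (f : X → B) (x : X) (b : Bool) :
    FreeGroup.lift f (letter x b) = if b then f x else (f x)⁻¹ := by
  cases b with
  | true => rw [eletter_true, FreeGroup.lift_apply_of]; rfl
  | false => rw [eletter_false, map_inv, FreeGroup.lift_apply_of]; rfl

theorem shift_rel (n : ℤ) (i : S × ℤ) :
    FreeGroup.lift (fun x : V × ℤ => (PresentedGroup.of (x.1, x.2 + n) : NS w h S))
      (shiftWord w h i.1 i.2) = 1 := by
  have h1 : (PresentedGroup.mk _ (shiftWord w h i.1 (i.2 + n)) : NS w h S) = 1 :=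
    PresentedGroup.one_of_mem ⟨(i.1, i.2 + n), rfl⟩
  rw [← h1, shiftWord, shiftWord, map_list_prod, map_list_prod, List.map_ofFn, List.map_ofFn]
  congr 2
  funext k
  simp only [Function.comp_apply]
  rw [lift_letter]
  have e : ∀ x : V × ℤ, (PresentedGroup.mk _ (FreeGroup.of x) : NS w h S) = PresentedGroup.of x :=
    fun _ => rfl
  cases sgn w ⟨i.1, k⟩ with
  | true => rw [eletter_true, e, add_assoc]; rfl
  | false => rw [eletter_false, map_inv, e, add_assoc]; rfl

/-- the translation -/
def shiftHom (n : ℤ) : NS w h S →* NS w h S :=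
  PresentedGroup.toGroup (f := fun x : V × ℤ => (PresentedGroup.of (x.1, x.2 + n) : NS w h S)) (by
    rintro _ ⟨i, rfl⟩
    exact shift_rel w h S n i)

theorem shiftHom_of (n : ℤ) (x : V × ℤ) :
    shiftHom w h S n (PresentedGroup.of x) = PresentedGroup.of (x.1, x.2 + n) :=
  PresentedGroup.toGroup.of _

theorem shiftHom_comp (n m : ℤ) :
    (shiftHom w h S n).comp (shiftHom w h S m) = shiftHom w h S (m + n) := by
  refine PresentedGroup.ext fun x => ?_
  rw [MonoidHom.comp_apply, shiftHom_of, shiftHom_of, shiftHom_of, add_assoc]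

theorem shiftHom_zero : shiftHom w h S 0 = MonoidHom.id _ := by
  refine PresentedGroup.ext fun x => ?_
  rw [shiftHom_of, add_zero]
  rfl

/-- the translation as an automorphism -/
def shiftAut : MulAut (NS w h S) where
  toFun := shiftHom w h S 1
  invFun := shiftHom w h S (-1)
  left_inv x := by
    have := DFunLike.congr_fun (shiftHom_comp w h S (-1) 1) x
    rw [MonoidHom.comp_apply, add_neg_cancel, shiftHom_zero] at this
    exact this
  right_inv x := by
    have := DFunLike.congr_fun (shiftHom_comp w h S 1 (-1)) x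
    rw [MonoidHom.comp_apply, neg_add_cancel, shiftHom_zero] at this
    exact this
  map_mul' := map_mul _

theorem shiftAut_zpow (n : ℤ) (x : NS w h S) :
    ((shiftAut w h S) ^ n) x = shiftHom w h S n x := by
  induction n using Int.induction_on generalizing x with
  | zero => rw [zpow_zero, shiftHom_zero]; rfl
  | succ n ih =>
    rw [zpow_add_one, MulAut.mul_apply, ih]
    exact DFunLike.congr_fun ((shiftHom_comp w h S n 1).trans (by rw [add_comm])) x
  | pred n ih =>
    rw [zpow_sub_one, MulAut.mul_apply, ih]
    exact DFunLike.congr_fun ((shiftHom_comp w h S (-n) (-1)).trans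
      (by rw [add_comm, sub_eq_add_neg])) x

/-- the action of `ℤ` -/
def act : Multiplicative ℤ →* MulAut (NS w h S) := zpowersHom _ (shiftAut w h S)

theorem act_of (n : ℤ) (x : V × ℤ) :
    act w h S (Multiplicative.ofAdd n) (PresentedGroup.of x) = PresentedGroup.of (x.1, x.2 + n) := by
  rw [act, zpowersHom_apply]
  show ((shiftAut w h S) ^ n) _ = _
  rw [shiftAut_zpow, shiftHom_of]

/-- the images of the generators -/
def toSD : Option V → NS w h S ⋊[act w h S] Multiplicative ℤ
  | none => SemidirectProduct.inr (Multiplicative.ofAdd 1)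
  | some x => SemidirectProduct.inl (PresentedGroup.of (x, 0))

theorem inr_zpow (m : ℤ) :
    (SemidirectProduct.inr (Multiplicative.ofAdd (1 : ℤ)) :
      NS w h S ⋊[act w h S] Multiplicative ℤ) ^ m =
      SemidirectProduct.inr (Multiplicative.ofAdd m) := by
  rw [← map_zpow (SemidirectProduct.inr :
    Multiplicative ℤ →* NS w h S ⋊[act w h S] Multiplicative ℤ)]
  congr 1
  rw [← ofAdd_zsmul, smul_eq_mul, mul_one]

theorem toSD_conj (m : ℤ) (x : V) :
    (SemidirectProduct.inr (Multiplicative.ofAdd (1 : ℤ)) :
      NS w h S ⋊[act w h S] Multiplicative ℤ) ^ m *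
        SemidirectProduct.inl (PresentedGroup.of (x, 0)) *
        SemidirectProduct.inr (Multiplicative.ofAdd (1 : ℤ)) ^ (-m) =
      SemidirectProduct.inl (PresentedGroup.of (x, m)) := by
  rw [inr_zpow, inr_zpow, ofAdd_neg, ← SemidirectProduct.inl_aut, act_of, zero_add]

theorem toSD_rel (r : S) : FreeGroup.lift (toSD w h S) (liftWord w h r) = 1 := by
  have h1 : (PresentedGroup.mk _ (shiftWord w h r 0) : NS w h S) = 1 :=
    PresentedGroup.one_of_mem ⟨(r, 0), rfl⟩
  have h2 : (SemidirectProduct.inl (PresentedGroup.mk _ (shiftWord w h r 0) : NS w h S) :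
      NS w h S ⋊[act w h S] Multiplicative ℤ) = 1 := by rw [h1, map_one]
  rw [← h2, shiftWord, liftWord, map_list_prod, map_list_prod, map_list_prod, List.map_ofFn,
    List.map_ofFn, List.map_ofFn]
  congr 2
  funext k
  simp only [Function.comp_apply]
  rw [map_mul, map_mul, map_zpow, map_zpow, lift_letter, FreeGroup.lift_apply_of, add_zero]
  have e : ∀ x : V × ℤ, (PresentedGroup.mk _ (FreeGroup.of x) : NS w h S) = PresentedGroup.of x :=
    fun _ => rfl
  have e1 : toSD w h S none = SemidirectProduct.inr (Multiplicative.ofAdd 1) := rfl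
  have e2 : ∀ x, toSD w h S (some x) = SemidirectProduct.inl (PresentedGroup.of (x, 0)) :=
    fun _ => rfl
  cases sgn w ⟨r, k⟩ with
  | true =>
    rw [eletter_true, e, e1, e2, if_pos rfl, toSD_conj]
  | false =>
    rw [eletter_false, map_inv, map_inv, e, e1, e2, if_neg Bool.false_ne_true,
      ← toSD_conj w h S (h ⟨r, k⟩) (gen w ⟨r, k⟩)]
    group

/-- the embedding into the semidirect product -/
def emb : GS w h S →* NS w h S ⋊[act w h S] Multiplicative ℤ :=
  PresentedGroup.toGroup (f := toSD w h S) (by
    rintro _ ⟨r, rfl⟩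
    exact toSD_rel w h S r)

theorem mk_conj_letter (a : ℤ) (x : V) (b : Bool) :
    (PresentedGroup.mk _ (FreeGroup.of none ^ a * letter (some x) b * FreeGroup.of none ^ (-a)) :
      GS w h S) = PresentedGroup.of none ^ a *
        (if b then PresentedGroup.of (some x) else (PresentedGroup.of (some x))⁻¹) *
        PresentedGroup.of none ^ (-a) := by
  rw [map_mul, map_mul, map_zpow, map_zpow]
  cases b with
  | true => rfl
  | false => rw [eletter_false, map_inv]; rfl

theorem back_rel (i : S × ℤ) :
    FreeGroup.lift (fun x : V × ℤ => (PresentedGroup.of none ^ x.2 * PresentedGroup.of (some x.1) *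
      PresentedGroup.of none ^ (-x.2) : GS w h S)) (shiftWord w h i.1 i.2) = 1 := by
  have h1 : (PresentedGroup.mk _ (liftWord w h i.1) : GS w h S) = 1 :=
    PresentedGroup.one_of_mem ⟨i.1, rfl⟩
  have h2 : (MulAut.conj ((PresentedGroup.of none : GS w h S) ^ i.2)).toMonoidHom
      (PresentedGroup.mk _ (liftWord w h i.1) : GS w h S) = 1 := by rw [h1, map_one]
  rw [← h2, shiftWord, liftWord, map_list_prod, map_list_prod, map_list_prod, List.map_ofFn,
    List.map_ofFn, List.map_ofFn]
  congr 2
  funext k
  simp only [Function.comp_apply]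
  rw [mk_conj_letter, lift_letter]
  show _ = (PresentedGroup.of none : GS w h S) ^ i.2 * _ * ((PresentedGroup.of none) ^ i.2)⁻¹
  cases sgn w ⟨i.1, k⟩ with
  | true =>
    rw [if_pos rfl, if_pos rfl]
    simp only []
    group
  | false =>
    rw [if_neg Bool.false_ne_true, if_neg Bool.false_ne_true]
    simp only []
    group

/-- the homomorphism of the covering group -/
def backN : NS w h S →* GS w h S :=
  PresentedGroup.toGroup (f := fun x : V × ℤ => (PresentedGroup.of none ^ x.2 *
    PresentedGroup.of (some x.1) * PresentedGroup.of none ^ (-x.2) : GS w h S)) (by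
    rintro _ ⟨i, rfl⟩
    exact back_rel w h S i)

theorem backN_of (x : V × ℤ) : backN w h S (PresentedGroup.of x) = PresentedGroup.of none ^ x.2 *
    PresentedGroup.of (some x.1) * PresentedGroup.of none ^ (-x.2) :=
  PresentedGroup.toGroup.of _

/-- the left inverse of the embedding -/
def back : NS w h S ⋊[act w h S] Multiplicative ℤ →* GS w h S :=
  SemidirectProduct.lift (backN w h S) (zpowersHom _ (PresentedGroup.of none)) (by
    intro g
    refine PresentedGroup.ext fun x => ?_
    have key : ∀ n : ℤ, backN w h S (act w h S (Multiplicative.ofAdd n) (PresentedGroup.of x)) =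
        (PresentedGroup.of none : GS w h S) ^ n * backN w h S (PresentedGroup.of x) *
          ((PresentedGroup.of none) ^ n)⁻¹ := by
      intro n
      rw [act_of, backN_of, backN_of]
      simp only []
      group
    exact key (Multiplicative.toAdd g))

theorem back_emb (x : GS w h S) : back w h S (emb w h S x) = x := by
  have h1 : (back w h S).comp (emb w h S) = MonoidHom.id _ := by
    refine PresentedGroup.ext fun x => ?_
    have h2 : emb w h S (PresentedGroup.of x) = toSD w h S x := PresentedGroup.toGroup.of _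
    rw [MonoidHom.comp_apply, h2]
    cases x with
    | none =>
      show back w h S (SemidirectProduct.inr _) = _
      rw [back, SemidirectProduct.lift_inr, zpowersHom_apply]
      show (PresentedGroup.of none : GS w h S) ^ (1 : ℤ) = _
      rw [zpow_one]
      rfl
    | some x =>
      show back w h S (SemidirectProduct.inl _) = _
      rw [back, SemidirectProduct.lift_inl, backN_of]
      simp
  exact DFunLike.congr_fun h1 x

end cover

theorem t_COV : S_COV := by
  intro V R w h S hN
  exact locInd_of_injective (locInd_semidirect (act w h S) hN) (emb w h S)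
    (LeftInverse.injective (back_emb w h S))

end Pool.Agent.H18LI
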