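import Pool.Agent.H18LI.Stm

/-!
# Piece HALL
-/

set_option autoImplicit false

namespace Pool.Agent.H18LI

open Function Pool.Agent.R655.LI

/-- the letters which do not occur do not contribute to the exponent sums -/
theorem expSum_eq_zero {V : Type} (t : V) : ∀ l : List (V × Bool), (∀ a ∈ l, a.1 ≠ t) →
    (expSum V (FreeGroup.mk l)).toAdd t = 0 := by
  intro l
  induction l with
  | nil =>
    intro _
    rw [← FreeGroup.one_eq_mk, map_one]
    rfl
  | cons a l ih =>
    intro h
    have h1 : (FreeGroup.mk (a :: l) : FreeGroup V) = FreeGroup.mk [a] * FreeGroup.mk l := by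
      rw [FreeGroup.mul_mk]
      rfl
    have h2 := ih fun b hb => h b (List.mem_cons_of_mem _ hb)
    have h3 : a.1 ≠ t := h a List.mem_cons_self
    have h4 : (expSum V (FreeGroup.mk [a])).toAdd t = 0 := by
      unfold expSum
      rw [FreeGroup.lift_mk]
      rcases a with ⟨x, b⟩
      have h5 : (Finsupp.single x (1 : ℤ)) t = 0 := Finsupp.single_eq_of_ne (Ne.symm h3)
      cases b <;> simp [h5]
    rw [h1, map_mul, toAdd_mul, Finsupp.add_apply, h2, h4, add_zero]

theorem t_HALL : S_HALL := by
  classical
  intro V R _ _ w hinj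
  let T : R → Finset V := fun r => ((w r).map Prod.fst).toFinset
  let v : R → (V →₀ ℤ) := fun r => (expSum V (FreeGroup.mk (w r))).toAdd
  have hv : ∀ r t, t ∉ T r → v r t = 0 := by
    intro r t ht
    refine expSum_eq_zero t (w r) fun a ha h => ht ?_
    simp only [T, List.mem_toFinset, List.mem_map]
    exact ⟨a, ha, h⟩
  have hli : LinearIndependent ℤ v := hinj
  have hall : ∀ s : Finset R, s.card ≤ (s.biUnion T).card := by
    intro s
    let T' : Finset V := s.biUnion T
    let u : s → (T' → ℤ) := fun r t => v r t
    have hu : LinearIndependent ℤ u := by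
      rw [Fintype.linearIndependent_iff]
      intro g hg i
      refine Fintype.linearIndependent_iff.1 (hli.comp (fun r : s => (r : R))
        Subtype.val_injective) g ?_ i
      ext t
      rw [Finsupp.finsetSum_apply]
      by_cases ht : t ∈ T'
      · have h2 := congrFun hg ⟨t, ht⟩
        rw [Finset.sum_apply] at h2
        exact h2
      · refine Finset.sum_eq_zero fun r _ => ?_
        show g r * v r t = 0
        rw [hv r t, mul_zero]
        intro h3
        exact ht (Finset.mem_biUnion.2 ⟨r, r.2, h3⟩)
    have h := hu.fintype_card_le_finrank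
    rw [Module.finrank_fintype_fun_eq_card, Fintype.card_coe, Fintype.card_coe] at h
    exact h
  obtain ⟨f, hf1, hf2⟩ := (Finset.all_card_le_biUnion_card_iff_exists_injective T).1 hall
  have hpos : ∀ r, ∃ k : Fin (w r).length, ((w r).get k).1 = f r := by
    intro r
    have h := hf2 r
    simp only [T, List.mem_toFinset, List.mem_map] at h
    obtain ⟨a, ha, h⟩ := h
    obtain ⟨k, hk⟩ := List.mem_iff_get.1 ha
    exact ⟨k, by rw [hk]; exact h⟩
  choose k hk using hpos
  refine ⟨fun r => ⟨r, k r⟩, fun r => rfl, ?_⟩
  intro a b hab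
  apply hf1
  have h1 : gen w ⟨a, k a⟩ = f a := hk a
  have h2 : gen w ⟨b, k b⟩ = f b := hk b
  rw [← h1, ← h2]
  exact hab

end Pool.Agent.H18LI
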