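import Pool.Agent.H18LI.Stm

/-!
# MP_cf50d6_gt: piece CONTR of project H18LI (helper80)

`L^h` is contractible if `L` is.
-/

set_option autoImplicit false

namespace Pool.Agent.H18LI

open Function Pool.Agent.R655.LI

lemma mk_eq_prod {X : Type} (l : List (X × Bool)) :
    FreeGroup.mk l = (l.map fun p => letter p.1 p.2).prod := by
  induction l with
  | nil => rfl
  | cons a l ih =>
    rw [List.map_cons, List.prod_cons, ← ih, letter, FreeGroup.mul_mk]
    rfl

lemma mk_eq_ofFn {X : Type} (l : List (X × Bool)) :
    FreeGroup.mk l = (List.ofFn fun k : Fin l.length => letter (l.get k).1 (l.get k).2).prod := by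
  rw [mk_eq_prod]
  congr 1
  apply List.ext_getElem
  · simp
  · intro i h1 h2
    simp

lemma map_letter {X Y : Type} (f : X → Y) (x : X) (b : Bool) :
    FreeGroup.map f (letter x b) = letter (f x) b := by
  simp [letter]

/-- A homomorphism that does not see conjugations by `t`. -/
lemma map_liftWord {V R : Type} (w : R → List (V × Bool)) (h : Pos w → ℤ) (r : R) {G : Type}
    [Group G] (f : FreeGroup (Option V) →* G)
    (hf : ∀ (x : FreeGroup (Option V)) (n : ℤ),
      f (FreeGroup.of none ^ n * x * FreeGroup.of none ^ (-n)) = f x) :
    f (liftWord w h r) = f (FreeGroup.map some (FreeGroup.mk (w r))) := by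
  rw [liftWord, mk_eq_ofFn, map_list_prod, map_list_prod, map_list_prod, List.map_ofFn,
    List.map_ofFn, List.map_ofFn]
  congr 1
  congr 1
  funext k
  simp only [Function.comp_apply]
  rw [hf, map_letter]
  rfl

/-- the relators of `L^h` -/
def liftRel {V R : Type} (w : R → List (V × Bool)) (h : Pos w → ℤ) (r : Option R) :
    FreeGroup (Option V) := r.elim (FreeGroup.of none) (liftWord w h)

lemma lift_pi {V R : Type} (w : R → List (V × Bool)) (h : Pos w → ℤ)
    (hL : ∀ x : PresentedGroup (Set.range fun r => FreeGroup.mk (w r)), x = 1) :
    ∀ x : PresentedGroup (Set.range (liftRel w h)), x = 1 := by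
  have ht : (PresentedGroup.mk (Set.range (liftRel w h))) (FreeGroup.of none) = 1 :=
    PresentedGroup.one_of_mem ⟨none, rfl⟩
  have hw : ∀ x ∈ Set.range (fun r => FreeGroup.mk (w r)),
      FreeGroup.lift (fun v : V => (PresentedGroup.of (some v) :
        PresentedGroup (Set.range (liftRel w h)))) x = 1 := by
    rintro _ ⟨r, rfl⟩
    have h1 : (PresentedGroup.mk (Set.range (liftRel w h))) (liftWord w h r) = 1 :=
      PresentedGroup.one_of_mem ⟨some r, rfl⟩
    rw [map_liftWord w h r (PresentedGroup.mk (Set.range (liftRel w h))) (by
      intro x n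
      rw [map_mul, map_mul, map_zpow, map_zpow, ht, one_zpow, one_zpow, one_mul, mul_one])] at h1
    have h3 : FreeGroup.lift (fun v : V => (PresentedGroup.of (some v) :
          PresentedGroup (Set.range (liftRel w h)))) =
        (PresentedGroup.mk (Set.range (liftRel w h))).comp (FreeGroup.map some) := by
      ext v
      simp [PresentedGroup.of]
    rw [h3]
    exact h1
  have hs : ∀ v : V, (PresentedGroup.of (some v) : PresentedGroup (Set.range (liftRel w h))) = 1 := by
    intro v
    have h4 := congrArg (PresentedGroup.toGroup hw) (hL (PresentedGroup.of v))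
    rw [map_one, PresentedGroup.toGroup.of] at h4
    exact h4
  have hid : (MonoidHom.id (PresentedGroup (Set.range (liftRel w h)))) = 1 := by
    refine PresentedGroup.ext fun v => ?_
    cases v with
    | none => exact ht
    | some v => exact hs v
  intro x
  exact DFunLike.congr_fun hid x

lemma lift_bdry {V R : Type} (w : R → List (V × Bool)) (h : Pos w → ℤ)
    (hL : Injective (Finsupp.linearCombination ℤ fun r => (expSum V (FreeGroup.mk (w r))).toAdd)) :
    Injective (Finsupp.linearCombination ℤ fun r => (expSum (Option V) (liftRel w h r)).toAdd) := by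
  have hcls : ∀ r : R, (expSum (Option V) (liftWord w h r)).toAdd =
      Finsupp.lmapDomain ℤ ℤ some (expSum V (FreeGroup.mk (w r))).toAdd := by
    intro r
    rw [map_liftWord w h r (expSum (Option V)) (by
      intro x n
      rw [map_mul, map_mul, map_zpow, map_zpow, mul_comm, ← mul_assoc, zpow_neg, inv_mul_cancel,
        one_mul])]
    have : (expSum (Option V)).comp (FreeGroup.map some) =
        (AddMonoidHom.toMultiplicative (Finsupp.mapDomain.addMonoidHom some)).comp
          (expSum V) := by
      ext v
      simp [expSum]
    exact congrArg Multiplicative.toAdd (DFunLike.congr_fun this (FreeGroup.mk (w r)))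
  have key : ∀ c : Option R →₀ ℤ,
      Finsupp.linearCombination ℤ (fun r => (expSum (Option V) (liftRel w h r)).toAdd) c =
      c none • Finsupp.single (none : Option V) 1 +
        Finsupp.lmapDomain ℤ ℤ (some : V → Option V)
          (Finsupp.linearCombination ℤ (fun r => (expSum V (FreeGroup.mk (w r))).toAdd) c.some) := by
    intro c
    rw [Finsupp.linearCombination_option]
    congr 1
    · congr 1
      exact expSum_of _
    · rw [Finsupp.apply_linearCombination]
      congr 2
      funext r
      exact hcls r
  refine (injective_iff_map_eq_zero _).2 ?_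
  intro c hc
  have h1 := key c
  rw [hc] at h1
  have h2 : c none = 0 := by
    have h3 := DFunLike.congr_fun h1 (none : Option V)
    have h4 : (Finsupp.lmapDomain ℤ ℤ (some : V → Option V)
        (Finsupp.linearCombination ℤ (fun r => (expSum V (FreeGroup.mk (w r))).toAdd) c.some))
          none = 0 := by
      refine Finsupp.mapDomain_of_notMem_range _ _ ?_
      simp
    rw [Finsupp.add_apply, h4] at h3
    simpa using h3.symm
  rw [h2, zero_smul, zero_add] at h1
  have h5 : (Finsupp.linearCombination ℤ (fun r => (expSum V (FreeGroup.mk (w r))).toAdd)) c.some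
      = 0 := by
    refine Finsupp.mapDomain_injective (Option.some_injective V) ?_
    rw [Finsupp.mapDomain_zero]
    exact h1.symm
  have h6 : c.some = 0 := hL (h5.trans (map_zero _).symm)
  ext k
  cases k with
  | none => exact h2
  | some r => exact DFunLike.congr_fun h6 r

theorem lift_contractible (V R : Type) (w : R → List (V × Bool)) (h : Pos w → ℤ)
    (hL : (base w).Contractible) : (lift w h).Contractible :=
  ⟨lift_pi w h hL.pi_eq_one, lift_bdry w h hL.bdry_inj⟩

theorem t_CONTR : S_CONTR := fun V R w h hL =>
  ⟨lift_contractible V R w h hL, none, rfl⟩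

end Pool.Agent.H18LI
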