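import Pool.Agent.H18LI.Main

/-!
# Ties and the final statement (from the pieces ISO, WALK, HALL, CONTR, EXH)
-/

set_option autoImplicit false

namespace Pool.Agent.H18LI

open Function Pool.Agent.R655.LI

/-- A selection: one occurrence of a letter from the attaching word of every 2-cell, such that the
selected 1-cells are different. -/
def IsSel {V R : Type} (w : R → List (V × Bool)) (q : R → Pos w) : Prop :=
  (∀ r, (q r).1 = r) ∧ Injective (fun r => gen w (q r))

/-- The heights `h` have a tie: there are two different selections of minimal total height. -/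
def Tie {V R : Type} [Fintype R] (w : R → List (V × Bool)) (h : Pos w → ℤ) : Prop :=
  ∃ q₁ q₂ : R → Pos w, IsSel w q₁ ∧ IsSel w q₂ ∧ q₁ ≠ q₂ ∧
    (∀ q, IsSel w q → ∑ r, h (q₁ r) ≤ ∑ r, h (q r)) ∧
    (∀ q, IsSel w q → ∑ r, h (q₂ r) ≤ ∑ r, h (q r))

/-- without a tie everything is locally indicable -/
theorem good_of_not_tie (hW : S_WALK) (hH : S_HALL) {V R : Type} [Finite V] [Fintype R]
    (w : R → List (V × Bool)) (hC : (base w).Contractible) (h : Pos w → ℤ) (ht : ¬ Tie w h)
    (K : Cx) (s : Sub K ((lift w h).del none)) : LocInd K.Pi := by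
  classical
  have hne : {q : R → Pos w | IsSel w q}.Nonempty := hH V R w hC.bdry_inj
  obtain ⟨q, hq, hqmin⟩ := Set.exists_min_image {q : R → Pos w | IsSel w q}
    (fun q => ∑ r, h (q r)) (Set.toFinite _) hne
  refine t_SUB V R w h (fun S => li_of_unique hW w h q hq.1 hq.2 ?_ S) K s
  intro q' hq1 hq2 hne'
  by_contra hle
  push Not at hle
  exact ht ⟨q, q', hq, ⟨hq1, hq2⟩, Ne.symm hne', hqmin, fun q'' hq'' => hle.trans (hqmin q'' hq'')⟩

/-- ties are rare -/
theorem count_tie (hI : S_ISO) {V R : Type} [Fintype R] (w : R → List (V × Bool)) (N : ℕ) :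
    {h : Pos w → Fin N | Tie w fun p => ((h p : ℕ) : ℤ)}.ncard * N ≤
      (∑ r, (w r).length) * N ^ (∑ r, (w r).length) := by
  classical
  have hcard : Fintype.card (Pos w) = ∑ r, (w r).length := by
    rw [Fintype.card_sigma]
    exact Finset.sum_congr rfl fun r _ => Fintype.card_fin _
  have h1 := hI (Pos w) R Sigma.fst N {q | IsSel w q} (fun q hq => hq.1)
  rw [hcard] at h1
  refine le_trans (Nat.mul_le_mul_right N (Set.ncard_le_ncard ?_ (Set.toFinite _))) h1
  rintro h ⟨q₁, q₂, h1, h2, h3, h4, h5⟩
  refine ⟨q₁, h1, q₂, h2, h3, fun q hq => ?_, fun q hq => ?_⟩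
  · have := h4 q hq
    simp only at this
    exact_mod_cast this
  · have := h5 q hq
    simp only at this
    exact_mod_cast this

/-- Q1 for finite complexes is its restriction to the ties -/
theorem equivalence_tie (hW : S_WALK) (hH : S_HALL) (hC : S_CONTR) (hE : S_EXH) :
    Question Cx.IsFin ↔ ∀ (V R : Type) [Finite V] [Fintype R] (w : R → List (V × Bool)),
      (base w).Contractible → ∀ h : Pos w → ℤ, Tie w h → LocInd ((lift w h).del none).Pi := by
  classical
  rw [equivalence hC hE]
  constructor
  · intro hA V R _ _ w hw h _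
    exact hA V R w hw h
  · intro hA V R _ _ w hw h
    have := Fintype.ofFinite R
    by_cases ht : Tie w h
    · exact hA V R w hw h ht
    · refine good_of_not_tie hW hH w hw h ht ((lift w h).del none) ⟨Function.Embedding.refl _,
        Function.Embedding.refl _, fun j => ?_⟩
      change FreeGroup.map id _ = _
      rw [FreeGroup.map.id]
      rfl

end Pool.Agent.H18LI
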