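import Pool.Agent.H18LI.Stm

/-!
# Piece WALK (closed walks and the unique selection of minimal weight) of project H18LI
-/

set_option autoImplicit false
set_option linter.unusedSectionVars false

namespace Pool.Agent.H18LI

open Function Pool.Agent.R655.LI
open scoped Classical

namespace WALK

variable {P R V : Type} [Fintype R] {row : P → R} {g : P → V} {h : P → ℤ} {q : R → P}

/-- the closed walks without repetition of the rows -/
theorem simple (hq : ∀ r, row (q r) = r) (hinj : Injective (g ∘ q))
    (hmin : ∀ q' : R → P, (∀ r, row (q' r) = r) → Injective (g ∘ q') → q' ≠ q →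
      ∑ r, h (q r) < ∑ r, h (q' r)) (k : ℕ) (hk : 1 ≤ k) (a : ℕ → P)
    (hcl : row (a k) = row (a 0))
    (hst : ∀ t < k, g (a (t + 1)) = g (q (row (a t))) ∧ a (t + 1) ≠ q (row (a (t + 1))))
    (hd : ∀ x y, x < y → y < k → row (a x) ≠ row (a y)) :
    0 < ∑ t ∈ Finset.range k, (h (a (t + 1)) - h (q (row (a t)))) := by
  have hd0 : ∀ x y, x < k → y < k → row (a x) = row (a y) → x = y := by
    intro x y hx hy he
    rcases lt_trichotomy x y with h1 | h1 | h1
    · exact (hd x y h1 hy he).elim
    · exact h1
    · exact (hd y x h1 hx he.symm).elim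
  have hd1' : ∀ x y, x < y → y < k → row (a (x + 1)) ≠ row (a (y + 1)) := by
    intro x y hx hy he
    by_cases h1 : y + 1 < k
    · exact hd (x + 1) (y + 1) (by omega) h1 he
    · have h2 : y + 1 = k := by omega
      rw [h2, hcl] at he
      exact hd 0 (x + 1) (by omega) (by omega) he.symm
  have hd1 : ∀ x y, x < k → y < k → row (a (x + 1)) = row (a (y + 1)) → x = y := by
    intro x y hx hy he
    rcases lt_trichotomy x y with h1 | h1 | h1
    · exact (hd1' x y h1 hy he).elim
    · exact h1
    · exact (hd1' y x h1 hx he.symm).elim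
  let q' : R → P := fun r => if hx : ∃ t, t < k ∧ row (a (t + 1)) = r then a (hx.choose + 1) else q r
  have q1 : ∀ t, t < k → q' (row (a (t + 1))) = a (t + 1) := by
    intro t ht
    have hx : ∃ t', t' < k ∧ row (a (t' + 1)) = row (a (t + 1)) := ⟨t, ht, rfl⟩
    have h1 := hd1 _ _ hx.choose_spec.1 ht hx.choose_spec.2
    change (if hx : ∃ t', t' < k ∧ row (a (t' + 1)) = row (a (t + 1)) then a (hx.choose + 1) else
      q (row (a (t + 1)))) = _
    rw [dif_pos hx, h1]
  have q2 : ∀ r, (¬ ∃ t, t < k ∧ row (a (t + 1)) = r) → q' r = q r := by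
    intro r hr
    exact dif_neg hr
  have hrow : ∀ r, row (q' r) = r := by
    intro r
    by_cases hr : ∃ t, t < k ∧ row (a (t + 1)) = r
    · obtain ⟨t, ht, rfl⟩ := hr
      rw [q1 t ht]
    · rw [q2 r hr, hq]
  have hhit : ∀ t, t < k → ∃ t', t' < k ∧ row (a (t' + 1)) = row (a t) := by
    intro t ht
    rcases Nat.eq_zero_or_pos t with h0 | h0
    · refine ⟨k - 1, by omega, ?_⟩
      have h1 : k - 1 + 1 = k := by omega
      rw [h1, hcl, h0]
    · refine ⟨t - 1, by omega, ?_⟩
      have h1 : t - 1 + 1 = t := by omega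
      rw [h1]
  have hinj' : Injective (g ∘ q') := by
    intro r s hrs
    simp only [Function.comp] at hrs
    by_cases hr : ∃ t, t < k ∧ row (a (t + 1)) = r
    · obtain ⟨t, ht, rfl⟩ := hr
      rw [q1 t ht, (hst t ht).1] at hrs
      by_cases hs : ∃ t, t < k ∧ row (a (t + 1)) = s
      · obtain ⟨t', ht', rfl⟩ := hs
        rw [q1 t' ht', (hst t' ht').1] at hrs
        have h1 := hd0 t t' ht ht' (hinj hrs)
        rw [h1]
      · rw [q2 s hs] at hrs
        have h1 := hinj hrs
        subst h1
        exact (hs (hhit t ht)).elim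
    · rw [q2 r hr] at hrs
      by_cases hs : ∃ t, t < k ∧ row (a (t + 1)) = s
      · obtain ⟨t', ht', rfl⟩ := hs
        rw [q1 t' ht', (hst t' ht').1] at hrs
        have h1 := hinj hrs
        subst h1
        exact (hr (hhit t' ht')).elim
      · rw [q2 s hs] at hrs
        exact hinj hrs
  have hne : q' ≠ q := by
    intro he
    have h1 := q1 0 (by omega)
    rw [he] at h1
    exact (hst 0 (by omega)).2 h1.symm
  have h1 := hmin q' hrow hinj' hne
  have h2 : ∑ r, (h (q' r) - h (q r)) =
      ∑ t ∈ Finset.range k, (h (a (t + 1)) - h (q (row (a (t + 1))))) := by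
    have h3 : ∑ r, (h (q' r) - h (q r)) =
        ∑ r ∈ (Finset.range k).image (fun t => row (a (t + 1))), (h (q' r) - h (q r)) := by
      symm
      refine Finset.sum_subset (Finset.subset_univ _) fun r _ hr => ?_
      rw [q2 r, sub_self]
      rintro ⟨t, ht, htr⟩
      exact hr (Finset.mem_image.mpr ⟨t, Finset.mem_range.mpr ht, htr⟩)
    rw [h3, Finset.sum_image]
    · refine Finset.sum_congr rfl fun t ht => ?_
      rw [q1 t (Finset.mem_range.mp ht)]
    · intro x hx y hy he
      exact hd1 x y (by simpa using hx) (by simpa using hy) he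
  have h4 : ∑ t ∈ Finset.range k, (h (q (row (a (t + 1)))) - h (q (row (a t)))) = 0 := by
    rw [Finset.sum_range_sub (fun t => h (q (row (a t)))) k, hcl, sub_self]
  have h5 : ∑ t ∈ Finset.range k, (h (a (t + 1)) - h (q (row (a t)))) =
      ∑ t ∈ Finset.range k, (h (a (t + 1)) - h (q (row (a (t + 1))))) +
      ∑ t ∈ Finset.range k, (h (q (row (a (t + 1)))) - h (q (row (a t)))) := by
    rw [← Finset.sum_add_distrib]
    refine Finset.sum_congr rfl fun t _ => ?_
    ring
  rw [h5, h4, add_zero, ← h2, Finset.sum_sub_distrib]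
  linarith

/-- all closed walks -/
theorem claim (hq : ∀ r, row (q r) = r) (hinj : Injective (g ∘ q))
    (hmin : ∀ q' : R → P, (∀ r, row (q' r) = r) → Injective (g ∘ q') → q' ≠ q →
      ∑ r, h (q r) < ∑ r, h (q' r)) (k : ℕ) : 1 ≤ k → ∀ a : ℕ → P,
    row (a k) = row (a 0) →
    (∀ t < k, g (a (t + 1)) = g (q (row (a t))) ∧ a (t + 1) ≠ q (row (a (t + 1)))) →
    0 < ∑ t ∈ Finset.range k, (h (a (t + 1)) - h (q (row (a t)))) := by
  induction k using Nat.strong_induction_on with
  | _ k ih =>
    intro hk a hcl hst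
    by_cases hd : ∃ x y, x < y ∧ y < k ∧ row (a x) = row (a y)
    · obtain ⟨x, y, hxy, hyk, hr⟩ := hd
      obtain ⟨u, rfl⟩ : ∃ u, y = x + u := ⟨y - x, by omega⟩
      obtain ⟨v, rfl⟩ : ∃ v, k = x + u + v := ⟨k - (x + u), by omega⟩
      have h1 := ih u (by omega) (by omega) (fun t => a (x + t)) (by simpa using hr.symm)
        (fun t ht => hst (x + t) (by omega))
      let c : ℕ → P := fun t => if t ≤ x then a t else a (t + u)
      have c1 : ∀ t, t ≤ x → c t = a t := fun t ht => if_pos ht
      have c2 : ∀ t, x < t → c t = a (t + u) := fun t ht => if_neg (by omega)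
      have cr : ∀ t, x ≤ t → row (c t) = row (a (t + u)) := by
        intro t ht
        rcases Nat.eq_or_lt_of_le ht with h2 | h2
        · subst h2
          rw [c1 x le_rfl, hr]
        · rw [c2 t h2]
      have h2 := ih (x + v) (by omega) (by omega) c
        (by
          rw [c2 (x + v) (by omega), c1 0 (Nat.zero_le _)]
          have h3 : x + v + u = x + u + v := by ring
          rw [h3, hcl])
        (by
          intro t ht
          by_cases h3 : t < x
          · rw [c1 t h3.le, c1 (t + 1) h3]
            exact hst t (by omega)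
          · rw [cr t (by omega), c2 (t + 1) (by omega)]
            have h4 : t + 1 + u = t + u + 1 := by ring
            rw [h4]
            exact hst (t + u) (by omega))
      have h3 : ∑ t ∈ Finset.range (x + v), (h (c (t + 1)) - h (q (row (c t)))) =
          ∑ t ∈ Finset.range x, (h (a (t + 1)) - h (q (row (a t)))) +
          ∑ t ∈ Finset.range v, (h (a (x + u + t + 1)) - h (q (row (a (x + u + t))))) := by
        rw [Finset.sum_range_add]
        congr 1
        · refine Finset.sum_congr rfl fun t ht => ?_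
          have h4 := Finset.mem_range.mp ht
          rw [c1 t h4.le, c1 (t + 1) h4]
        · refine Finset.sum_congr rfl fun t _ => ?_
          rw [cr (x + t) (by omega), c2 (x + t + 1) (by omega)]
          have h4 : x + t + 1 + u = x + u + t + 1 := by ring
          have h5 : x + t + u = x + u + t := by ring
          rw [h4, h5]
      rw [h3] at h2
      rw [Finset.sum_range_add, Finset.sum_range_add]
      have h4 : ∑ t ∈ Finset.range u, (h ((fun t => a (x + t)) (t + 1)) -
          h (q (row ((fun t => a (x + t)) t)))) =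
          ∑ t ∈ Finset.range u, (h (a (x + t + 1)) - h (q (row (a (x + t))))) := rfl
      rw [h4] at h1
      linarith
    · push Not at hd
      exact simple hq hinj hmin k hk a hcl hst hd

end WALK

open WALK in
/-- **Piece WALK** -/
theorem t_WALK : S_WALK := by
  intro P R V _ row g h q hq hinj hmin D hD
  by_contra hcon
  push Not at hcon
  have step : ∀ d : D, ∃ d' : D, ∃ p', row p' = d'.1.1 ∧ g p' = g (q d.1.1) ∧
      h p' + d'.1.2 = h (q d.1.1) + d.1.2 ∧ (d'.1 = d.1 → p' ≠ q d.1.1) := by
    intro d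
    obtain ⟨d', hd', p', h1, h2, h3, h4⟩ := hcon d.1 d.2
    exact ⟨⟨d', hd'⟩, p', h1, h2, h3, h4⟩
  choose F pp s1 s2 s3 s4 using step
  have s5 : ∀ d, pp d ≠ q (row (pp d)) := by
    intro d he
    rw [s1 d] at he
    have h1 := s2 d
    rw [he] at h1
    have h2 : (F d).1.1 = d.1.1 := hinj h1
    have h3 := s3 d
    rw [he, h2] at h3
    have h4 : (F d).1 = d.1 := Prod.ext h2 (by linarith)
    apply s4 d h4
    rw [he, h2]
  obtain ⟨d0, hd0⟩ := hD
  let ds : ℕ → D := fun t => F^[t] ⟨d0, hd0⟩
  have hds : ∀ t, ds (t + 1) = F (ds t) := fun t => Function.iterate_succ_apply' F t _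
  obtain ⟨i, j, hij, he⟩ : ∃ i j, i < j ∧ ds i = ds j := by
    have h1 : ¬ Injective ds := not_injective_infinite_finite ds
    rw [Function.Injective] at h1
    push Not at h1
    obtain ⟨i, j, he, hne⟩ := h1
    rcases lt_or_gt_of_ne hne with h2 | h2
    · exact ⟨i, j, h2, he⟩
    · exact ⟨j, i, h2, he.symm⟩
  let a : ℕ → P := fun t => Nat.casesOn t (q (ds i).1.1) fun t => pp (ds (i + t))
  have a0 : a 0 = q (ds i).1.1 := rfl
  have a1 : ∀ t, a (t + 1) = pp (ds (i + t)) := fun _ => rfl
  have ar : ∀ t, row (a t) = (ds (i + t)).1.1 := by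
    intro t
    cases t with
    | zero => rw [a0, hq]; rfl
    | succ t => rw [a1, s1, ← hds]; rfl
  have h1 := claim (row := row) (g := g) (h := h) hq hinj hmin (j - i) (by omega) a
    (by
      rw [ar, ar]
      have h2 : i + (j - i) = j := by omega
      rw [h2, ← he]
      rfl)
    (by
      intro t _
      refine ⟨?_, ?_⟩
      · rw [a1, ar, s2]
      · rw [a1]
        exact s5 _)
  have h2 : ∑ t ∈ Finset.range (j - i), (h (a (t + 1)) - h (q (row (a t)))) =
      ∑ t ∈ Finset.range (j - i), ((ds (i + t)).1.2 - (ds (i + (t + 1))).1.2) := by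
    refine Finset.sum_congr rfl fun t _ => ?_
    rw [a1, ar]
    have h3 := s3 (ds (i + t))
    rw [← hds] at h3
    have h4 : i + (t + 1) = i + t + 1 := rfl
    rw [h4]
    linarith
  have h3 : ∑ t ∈ Finset.range (j - i), ((ds (i + t)).1.2 - (ds (i + (t + 1))).1.2) = 0 := by
    rw [Finset.sum_range_sub' (fun t => (ds (i + t)).1.2) (j - i)]
    have h4 : i + (j - i) = j := by omega
    rw [h4, ← he, add_zero, sub_self]
  rw [h2, h3] at h1
  exact lt_irrefl _ h1

end Pool.Agent.H18LI
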