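import Pool.Agent.H18LI.Stm
import Pool.Agent.TH625.LOG.LI

/-!
# Elimination of relators with a letter occurring once
-/

set_option autoImplicit false

namespace Pool.Agent.H18LI

open Function Pool.Agent.R655.LI

section esub

variable {X : Type}

open Classical in
/-- the substitution `x ↦ c` -/
noncomputable def esub (x : X) (c : FreeGroup X) : FreeGroup X →* FreeGroup X :=
  FreeGroup.lift (Function.update FreeGroup.of x c)

theorem esub_self (x : X) (c : FreeGroup X) : esub x c (FreeGroup.of x) = c := by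
  classical
  rw [esub, FreeGroup.lift_apply_of, Function.update_self]

theorem subst_ne (x : X) (c : FreeGroup X) {y : X} (h : y ≠ x) :
    esub x c (FreeGroup.of y) = FreeGroup.of y := by
  classical
  rw [esub, FreeGroup.lift_apply_of, Function.update_of_ne h]

theorem esub_away (x : X) (c : FreeGroup X) {y : FreeGroup X} (h : y ∈ Away x) :
    esub x c y = y := by
  induction h using Subgroup.closure_induction with
  | mem y hy =>
    obtain ⟨z, hz, rfl⟩ := hy
    exact subst_ne x c hz
  | one => exact map_one _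
  | mul a b _ _ ha hb => rw [map_mul, ha, hb]
  | inv a _ ha => rw [map_inv, ha]

theorem eletter_true (x : X) : letter x true = FreeGroup.of x := rfl

theorem eletter_false (x : X) : letter x false = (FreeGroup.of x)⁻¹ := by
  rw [letter, FreeGroup.of, FreeGroup.inv_mk]
  rfl

/-- solving a relator for a letter -/
theorem exists_solution (x : X) (ρ : FreeGroup X) (h : ∃ u ∈ Away x, ∃ v ∈ Away x, ∃ b,
    ρ = u * letter x b * v) : ∃ σ : FreeGroup X →* FreeGroup X, σ ρ = 1 ∧
      (∀ y ∈ Away x, σ y = y) ∧ ∀ w, w⁻¹ * σ w ∈ Subgroup.normalClosure {ρ} := by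
  obtain ⟨u, hu, v, hv, b, rfl⟩ := h
  set N := Subgroup.normalClosure {u * letter x b * v} with hN
  have hmem : u * letter x b * v ∈ N := Subgroup.subset_normalClosure rfl
  have key : ∀ c : FreeGroup X, (QuotientGroup.mk (FreeGroup.of x) : FreeGroup X ⧸ N) =
      QuotientGroup.mk c → ∀ w, w⁻¹ * esub x c w ∈ N := by
    intro c hc w
    rw [← QuotientGroup.eq]
    have h1 : (QuotientGroup.mk' N).comp (esub x c) = QuotientGroup.mk' N := by
      ext y
      by_cases hy : y = x
      · subst hy
        show QuotientGroup.mk' N (esub y c (FreeGroup.of y)) = _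
        rw [esub_self]
        exact hc.symm
      · show QuotientGroup.mk' N (esub x c (FreeGroup.of y)) = _
        rw [subst_ne x c hy]
    exact (DFunLike.congr_fun h1 w).symm
  cases b with
  | true =>
    refine ⟨esub x (u⁻¹ * v⁻¹), ?_, fun y hy => esub_away _ _ hy, key _ ?_⟩
    · rw [eletter_true, map_mul, map_mul, esub_away _ _ hu, esub_away _ _ hv, esub_self]
      group
    · rw [QuotientGroup.eq]
      rw [eletter_true] at hmem
      have h1 : u⁻¹ * (u * FreeGroup.of x * v) * u⁻¹⁻¹ ∈ N :=
        Subgroup.normalClosure_normal.conj_mem _ hmem _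
      have h2 := N.inv_mem h1
      have h3 : u * ((u⁻¹ * (u * FreeGroup.of x * v) * u⁻¹⁻¹)⁻¹) * u⁻¹ ∈ N :=
        Subgroup.normalClosure_normal.conj_mem _ h2 _
      have h4 : (FreeGroup.of x)⁻¹ * (u⁻¹ * v⁻¹) =
          (FreeGroup.of x)⁻¹ * u⁻¹ * (u * FreeGroup.of x * v)⁻¹ * ((FreeGroup.of x)⁻¹ * u⁻¹)⁻¹ := by
        group
      rw [h4]
      exact Subgroup.normalClosure_normal.conj_mem _ (N.inv_mem hmem) _
  | false =>
    refine ⟨esub x (v * u), ?_, fun y hy => esub_away _ _ hy, key _ ?_⟩
    · rw [eletter_false, map_mul, map_mul, map_inv, esub_away _ _ hu, esub_away _ _ hv, esub_self]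
      group
    · rw [QuotientGroup.eq]
      rw [eletter_false] at hmem
      have h4 : (FreeGroup.of x)⁻¹ * (v * u) =
          u⁻¹ * (u * (FreeGroup.of x)⁻¹ * v) * u⁻¹⁻¹ := by
        group
      rw [h4]
      exact Subgroup.normalClosure_normal.conj_mem _ hmem _

end esub

section elim

variable {I X : Type}

/-- the condition of the piece ELIM for the subsets of `D` -/
def Elim (ρ : I → FreeGroup X) (x : I → X) : Prop :=
  ∀ D : Finset I, D.Nonempty → ∃ i ∈ D,
    (∃ u ∈ Away (x i), ∃ v ∈ Away (x i), ∃ b, ρ i = u * letter (x i) b * v) ∧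
      ∀ j ∈ D, j ≠ i → ρ j ∈ Away (x i)

/-- finitely many relators can be eliminated -/
theorem exists_retraction (ρ : I → FreeGroup X) (x : I → X) (H : Elim ρ x) (D : Finset I) :
    ∃ φ : FreeGroup X →* FreeGroup X, (∀ i ∈ D, φ (ρ i) = 1) ∧
      ∀ w, w⁻¹ * φ w ∈ Subgroup.normalClosure (ρ '' D) := by
  classical
  induction' hn : D.card with n ih generalizing D
  · have : D = ∅ := Finset.card_eq_zero.1 hn
    subst this
    refine ⟨MonoidHom.id _, fun i hi => absurd hi (Finset.notMem_empty _), fun w => ?_⟩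
    rw [MonoidHom.id_apply, inv_mul_cancel]
    exact Subgroup.one_mem _
  · have hne : D.Nonempty := Finset.card_pos.1 (by omega)
    obtain ⟨i, hi, hsol, haway⟩ := H D hne
    obtain ⟨σ, h1, h2, h3⟩ := exists_solution (x i) (ρ i) hsol
    obtain ⟨φ, g1, g2⟩ := ih (D.erase i) (by rw [Finset.card_erase_of_mem hi]; omega)
    refine ⟨φ.comp σ, ?_, ?_⟩
    · intro j hj
      rw [MonoidHom.comp_apply]
      by_cases hji : j = i
      · rw [hji, h1, map_one]
      · rw [h2 _ (haway j hj hji)]
        exact g1 j (Finset.mem_erase.2 ⟨hji, hj⟩)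
    · intro w
      rw [MonoidHom.comp_apply]
      have k1 : w⁻¹ * σ w ∈ Subgroup.normalClosure (ρ '' D) := by
        refine Subgroup.normalClosure_mono ?_ (h3 w)
        rintro _ rfl
        exact ⟨i, hi, rfl⟩
      have k2 : (σ w)⁻¹ * φ (σ w) ∈ Subgroup.normalClosure (ρ '' D) := by
        refine Subgroup.normalClosure_mono ?_ (g2 (σ w))
        exact Set.image_mono (Finset.coe_subset.2 (Finset.erase_subset _ _))
      have := Subgroup.mul_mem _ k1 k2
      rwa [show w⁻¹ * σ w * ((σ w)⁻¹ * φ (σ w)) = w⁻¹ * φ (σ w) by group] at this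

theorem exists_finset_of_mem (ρ : I → FreeGroup X) (w : FreeGroup X)
    (hw : w ∈ Subgroup.normalClosure (Set.range ρ)) :
    ∃ D : Finset I, w ∈ Subgroup.normalClosure (ρ '' D) := by
  classical
  have hw' : w ∈ Subgroup.closure (Group.conjugatesOfSet (Set.range ρ)) := hw
  have mono : ∀ {D E : Finset I}, D ⊆ E → Subgroup.normalClosure (ρ '' D) ≤
      Subgroup.normalClosure (ρ '' E) := fun h =>
    Subgroup.normalClosure_mono (Set.image_mono (Finset.coe_subset.2 h))
  induction hw' using Subgroup.closure_induction with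
  | mem x hx =>
    obtain ⟨r, ⟨i, rfl⟩, hr⟩ := Group.mem_conjugatesOfSet_iff.1 hx
    obtain ⟨u, rfl⟩ := isConj_iff.1 hr
    exact ⟨{i}, Subgroup.normalClosure_normal.conj_mem _
      (Subgroup.subset_normalClosure (Set.mem_image_of_mem ρ (by simp))) _⟩
  | one => exact ⟨∅, Subgroup.one_mem _⟩
  | mul x y hx hy ihx ihy =>
    obtain ⟨S, hS⟩ := ihx hx
    obtain ⟨T, hT⟩ := ihy hy
    exact ⟨S ∪ T, Subgroup.mul_mem _ (mono Finset.subset_union_left hS)
      (mono Finset.subset_union_right hT)⟩
  | inv x hx ihx =>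
    obtain ⟨S, hS⟩ := ihx hx
    exact ⟨S, Subgroup.inv_mem _ hS⟩

/-- a presented group is locally indicable if all the groups with finitely many of its relators have
a faithful homomorphism to a free group -/
theorem locInd_of_finite (ρ : I → FreeGroup X)
    (H : ∀ D : Finset I, ∃ φ : FreeGroup X →* FreeGroup X, (∀ i ∈ D, φ (ρ i) = 1) ∧
      ∀ w, φ w = 1 → w ∈ Subgroup.normalClosure (ρ '' D)) :
    LocInd (PresentedGroup (Set.range ρ)) := by
  classical
  intro J hJ hne
  have main : ∃ ψ : J →* Multiplicative ℤ, ∃ x, ψ x ≠ 1 := by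
    by_contra hcon
    push Not at hcon
    have : Group.FG J := (Group.fg_iff_subgroup_fg J).2 hJ
    obtain ⟨α, hα, P, hP⟩ := Group.fg_iff_exists_freeGroup_hom_surjective_finite.1 this
    have hsurj : Surjective (PresentedGroup.mk (Set.range ρ)) := PresentedGroup.mk_surjective _
    choose lft hlft using hsurj
    let Q : FreeGroup α →* FreeGroup X := FreeGroup.lift fun i => lft (P (FreeGroup.of i))
    have hQ : ∀ x, PresentedGroup.mk (Set.range ρ) (Q x) = P x := by
      intro x
      have h : (PresentedGroup.mk (Set.range ρ)).comp Q = J.subtype.comp P := by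
        ext i
        show PresentedGroup.mk (Set.range ρ) (Q (FreeGroup.of i)) = P (FreeGroup.of i)
        have h2 : Q (FreeGroup.of i) = lft (P (FreeGroup.of i)) := FreeGroup.lift_apply_of
        rw [h2, hlft]
      exact DFunLike.congr_fun h x
    obtain ⟨T, hTK, hT⟩ := Pool.Agent.TH625.LOG.exists_finset_hom P.ker
    have hfin : ∀ x ∈ T, ∃ D : Finset I, Q x ∈ Subgroup.normalClosure (ρ '' D) := by
      intro x hx
      refine exists_finset_of_mem ρ (Q x) ?_
      have h1 : PresentedGroup.mk (Set.range ρ) (Q x) = 1 := by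
        rw [hQ, (MonoidHom.mem_ker).1 (hTK x hx)]
        rfl
      exact (PresentedGroup.mk_eq_one_iff).1 h1
    choose! S hS using hfin
    obtain ⟨φ, g1, g2⟩ := H (T.biUnion S)
    have hker : Subgroup.normalClosure (ρ '' (T.biUnion S : Finset I)) ≤ φ.ker := by
      refine Subgroup.normalClosure_le_normal ?_
      rintro _ ⟨i, hi, rfl⟩
      exact MonoidHom.mem_ker.2 (g1 i hi)
    let Θ : FreeGroup α →* FreeGroup X := φ.comp Q
    have hΘT : ∀ x ∈ T, Θ x = 1 := by
      intro x hx
      refine MonoidHom.mem_ker.1 (hker ?_)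
      refine Subgroup.normalClosure_mono (Set.image_mono ?_) (hS x hx)
      exact Finset.coe_subset.2 (Finset.subset_biUnion_of_mem S hx)
    have hJ : Θ.range = ⊥ := by
      by_contra hJ
      obtain ⟨ψ, ⟨_, y, rfl⟩, hy⟩ := Pool.Agent.TH625.LOG.free_li Θ.range hJ
      apply hy
      let χ : FreeGroup α →* Multiplicative ℤ := ψ.comp Θ.rangeRestrict
      have hχ : ∀ x ∈ P.ker, χ x = 1 := by
        apply hT χ
        intro x hx
        show ψ (Θ.rangeRestrict x) = 1
        have h1 : Θ.rangeRestrict x = 1 := Subtype.ext (hΘT x hx)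
        rw [h1, map_one]
      let f : J →* Multiplicative ℤ :=
        P.liftOfRightInverse (Function.surjInv hP) (Function.rightInverse_surjInv hP)
          ⟨χ, fun x hx => MonoidHom.mem_ker.2 (hχ x hx)⟩
      have hf : ∀ x, f (P x) = χ x := fun x =>
        P.liftOfRightInverse_comp_apply (Function.surjInv hP) (Function.rightInverse_surjInv hP) _ x
      have h2 := hcon f (P y)
      rw [hf] at h2
      exact h2
    apply hne
    rw [Subgroup.eq_bot_iff_forall]
    intro h hh
    obtain ⟨x, hx⟩ := hP ⟨h, hh⟩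
    have h1 : φ (Q x) = 1 := by
      have h2 : Θ x ∈ Θ.range := ⟨x, rfl⟩
      rw [hJ] at h2
      exact Subgroup.mem_bot.1 h2
    have h3 : PresentedGroup.mk (Set.range ρ) (Q x) = 1 := by
      refine (PresentedGroup.mk_eq_one_iff).2 ?_
      refine Subgroup.normalClosure_mono ?_ (g2 _ h1)
      rintro _ ⟨i, _, rfl⟩
      exact ⟨i, rfl⟩
    rw [hQ, hx] at h3
    exact h3
  obtain ⟨ψ, hψ⟩ := main
  exact Pool.Agent.TH625.LOG.surj_of_ne ψ hψ

end elim

theorem t_ELIM : S_ELIM := by
  intro I X ρ x H
  refine locInd_of_finite ρ fun D => ?_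
  obtain ⟨φ, h1, h2⟩ := exists_retraction ρ x H D
  refine ⟨φ, h1, fun w hw => ?_⟩
  have := h2 w
  rw [hw, mul_one] at this
  exact inv_mem_iff.1 this

end Pool.Agent.H18LI
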