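import Pool.Agent.H18LI.CONTR

/-!
# MP_cf50d6_gt: piece EXH of project H18LI (helper80)

Every finite contractible `L` with a 2-cell `e` attached along a 1-cell `t` is, up to the change of
generators `x ↦ x t^(d x)`, one of the complexes `L₀^h`.
-/

set_option autoImplicit false

namespace Pool.Agent.H18LI

open Function Pool.Agent.R655.LI

section words

variable {X : Type} (t : X) (d : X → ℤ)

open Classical in
/-- The word without the letters `t`; every letter with its exponent of `t`; `D` = the degree of the
initial segment. -/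
noncomputable def dec : ℤ → List (X × Bool) → List (({v : X // v ≠ t} × Bool) × ℤ)
  | _, [] => []
  | D, p :: l =>
    if hx : p.1 = t then dec (D + cond p.2 1 (-1)) l
    else ((⟨p.1, hx⟩, p.2), cond p.2 D (D - d p.1)) :: dec (D + cond p.2 (d p.1) (-(d p.1))) l

/-- the letter of the target: `t^n y^± t^(-n)` -/
def cl {V : Type} (q : (V × Bool) × ℤ) : FreeGroup (Option V) :=
  FreeGroup.of none ^ q.2 * letter (some q.1.1) q.1.2 * FreeGroup.of none ^ (-q.2)

open Classical in
/-- killing the letter `t` -/
noncomputable def killt : FreeGroup X →* FreeGroup {v : X // v ≠ t} :=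
  FreeGroup.lift fun x => if hx : x = t then 1 else FreeGroup.of ⟨x, hx⟩

open Classical in
/-- the substitution `x = y t^(d x)` -/
noncomputable def subst : FreeGroup X →* FreeGroup (Option {v : X // v ≠ t}) :=
  FreeGroup.lift fun x =>
    if hx : x = t then FreeGroup.of none else FreeGroup.of (some ⟨x, hx⟩) * FreeGroup.of none ^ d x

/-- the inverse substitution -/
noncomputable def unsubst : FreeGroup (Option {v : X // v ≠ t}) →* FreeGroup X :=
  FreeGroup.lift fun y =>
    y.elim (FreeGroup.of t) (fun x => FreeGroup.of x.1 * FreeGroup.of t ^ (-(d x.1)))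

/-- the degree of a word -/
def deg (l : List (X × Bool)) : ℤ := (l.map fun p => cond p.2 (d p.1) (-(d p.1))).sum

lemma letter_true {Y : Type} (x : Y) : letter x true = FreeGroup.of x := rfl

lemma letter_false {Y : Type} (x : Y) : letter x false = (FreeGroup.of x)⁻¹ := rfl

lemma mk_cons {Y : Type} (p : Y × Bool) (l : List (Y × Bool)) :
    FreeGroup.mk (p :: l) = letter p.1 p.2 * FreeGroup.mk l := by
  rw [mk_eq_prod, List.map_cons, List.prod_cons, ← mk_eq_prod]

lemma killt_t : killt t (FreeGroup.of t) = 1 := by
  simp [killt]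

lemma killt_of (x : {v : X // v ≠ t}) : killt t (FreeGroup.of x.1) = FreeGroup.of x := by
  simp [killt, x.2]

lemma subst_t : subst t d (FreeGroup.of t) = FreeGroup.of none := by
  simp [subst]

lemma subst_of (x : {v : X // v ≠ t}) :
    subst t d (FreeGroup.of x.1) = FreeGroup.of (some x) * FreeGroup.of none ^ d x.1 := by
  simp [subst, x.2]

lemma unsubst_subst (x : FreeGroup X) : unsubst t d (subst t d x) = x := by
  have : (unsubst t d).comp (subst t d) = MonoidHom.id _ := by
    refine FreeGroup.ext_hom _ _ fun x => ?_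
    rw [MonoidHom.comp_apply, MonoidHom.id_apply]
    by_cases hx : x = t
    · subst hx
      rw [subst_t]
      simp [unsubst]
    · have h1 := subst_of t d ⟨x, hx⟩
      simp only at h1
      rw [h1, map_mul, map_zpow]
      simp [unsubst]
  exact DFunLike.congr_fun this x

lemma dec_fst (D : ℤ) (l : List (X × Bool)) :
    FreeGroup.mk ((dec t d D l).map Prod.fst) = killt t (FreeGroup.mk l) := by
  induction l generalizing D with
  | nil => simp [dec, ← FreeGroup.one_eq_mk]
  | cons p l ih =>
    rw [dec, mk_cons, map_mul]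
    obtain ⟨x, b⟩ := p
    by_cases hx : x = t
    · rw [dif_pos hx, ih]
      simp only
      rw [hx]
      cases b
      · rw [letter_false, map_inv, killt_t, inv_one, one_mul]
      · rw [letter_true, killt_t, one_mul]
    · rw [dif_neg hx, List.map_cons, mk_cons, ih]
      congr 1
      simp only
      have h1 := killt_of t ⟨x, hx⟩
      simp only at h1
      cases b
      · rw [letter_false, letter_false, map_inv, h1]
      · rw [letter_true, letter_true, h1]

lemma dec_prod (hd : d t = 1) (D : ℤ) (l : List (X × Bool)) :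
    FreeGroup.of none ^ D * subst t d (FreeGroup.mk l) =
      ((dec t d D l).map cl).prod * FreeGroup.of none ^ (D + deg d l) := by
  induction l generalizing D with
  | nil => simp [dec, deg, ← FreeGroup.one_eq_mk]
  | cons p l ih =>
    obtain ⟨x, b⟩ := p
    have hdeg : deg d ((x, b) :: l) = cond b (d x) (-(d x)) + deg d l := by simp [deg]
    rw [hdeg, dec, mk_cons, map_mul]
    by_cases hx : x = t
    · rw [dif_pos hx]
      simp only
      subst hx
      have h1 : subst x d (letter x b) = FreeGroup.of none ^ (cond b 1 (-1) : ℤ) := by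
        cases b
        · rw [letter_false, map_inv, subst_t, cond_false, zpow_neg, zpow_one]
        · rw [letter_true, subst_t, cond_true, zpow_one]
      rw [h1, ← mul_assoc, ← zpow_add, ih, hd, add_assoc]
    · rw [dif_neg hx]
      simp only
      have h1 := subst_of t d ⟨x, hx⟩
      simp only at h1
      rw [List.map_cons, List.prod_cons, ← add_assoc, mul_assoc, ← ih, ← mul_assoc, ← mul_assoc]
      congr 1
      rw [cl]
      cases b
      · simp only [cond_false]
        rw [letter_false, letter_false, map_inv, h1, mul_inv_rev, ← zpow_neg]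
        rw [mul_assoc (FreeGroup.of none ^ (D - d x) * _), ← zpow_add, ← mul_assoc, ← zpow_add]
        rw [show -(D - d x) + (D + -d x) = 0 by ring, zpow_zero, mul_one, sub_eq_add_neg]
      · simp only [cond_true]
        rw [letter_true, letter_true, h1]
        rw [mul_assoc (FreeGroup.of none ^ D * _), ← zpow_add, ← mul_assoc]
        rw [show -D + (D + d x) = d x by ring]

lemma deg_eq (δ : (X →₀ ℤ) →ₗ[ℤ] ℤ) (hδ : ∀ x, δ (Finsupp.single x 1) = d x)
    (l : List (X × Bool)) : deg d l = δ (expSum X (FreeGroup.mk l)).toAdd := by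
  induction l with
  | nil => simp [deg, ← FreeGroup.one_eq_mk]
  | cons p l ih =>
    obtain ⟨x, b⟩ := p
    have hdeg : deg d ((x, b) :: l) = cond b (d x) (-(d x)) + deg d l := by simp [deg]
    rw [hdeg, mk_cons, map_mul, toAdd_mul, map_add, ih]
    congr 1
    simp only
    cases b
    · rw [letter_false, map_inv, toAdd_inv, map_neg, expSum_of, hδ, cond_false]
    · rw [letter_true, expSum_of, hδ, cond_true]

end words

/-- the exponents of a list of letters with exponents -/
def expo {V R : Type} (q : R → List ((V × Bool) × ℤ)) (p : Pos fun r => (q r).map Prod.fst) : ℤ :=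
  ((q p.1).get (p.2.cast (List.length_map _))).2

lemma liftWord_expo {V R : Type} (q : R → List ((V × Bool) × ℤ)) (r : R) :
    liftWord (fun r => (q r).map Prod.fst) (expo q) r = ((q r).map cl).prod := by
  rw [liftWord]
  congr 1
  apply List.ext_getElem
  · simp
  · intro i h1 h2
    simp [cl, gen, sgn, expo]

/-- A substitution with a left inverse, matching the relators, gives an embedding. -/
lemma exists_embedding {A B I J : Type} (ρ : I → FreeGroup A) (σ : J → FreeGroup B)
    (Φ : FreeGroup A →* FreeGroup B) (Ψ : FreeGroup B →* FreeGroup A) (h : ∀ x, Ψ (Φ x) = x)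
    (h1 : ∀ i, ∃ j, Φ (ρ i) = σ j) (h2 : ∀ j, ∃ i, Ψ (σ j) = ρ i) :
    ∃ f : PresentedGroup (Set.range ρ) →* PresentedGroup (Set.range σ), Injective f := by
  have e1 : FreeGroup.lift (fun a => PresentedGroup.mk (Set.range σ) (Φ (FreeGroup.of a))) =
      (PresentedGroup.mk (Set.range σ)).comp Φ := by
    ext a
    simp
  have e2 : FreeGroup.lift (fun b => PresentedGroup.mk (Set.range ρ) (Ψ (FreeGroup.of b))) =
      (PresentedGroup.mk (Set.range ρ)).comp Ψ := by
    ext a
    simp
  have k1 : ∀ x ∈ Set.range ρ,
      FreeGroup.lift (fun a => PresentedGroup.mk (Set.range σ) (Φ (FreeGroup.of a))) x = 1 := by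
    rintro _ ⟨i, rfl⟩
    obtain ⟨j, hj⟩ := h1 i
    rw [e1, MonoidHom.comp_apply, hj]
    exact PresentedGroup.one_of_mem ⟨j, rfl⟩
  have k2 : ∀ x ∈ Set.range σ,
      FreeGroup.lift (fun b => PresentedGroup.mk (Set.range ρ) (Ψ (FreeGroup.of b))) x = 1 := by
    rintro _ ⟨j, rfl⟩
    obtain ⟨i, hi⟩ := h2 j
    rw [e2, MonoidHom.comp_apply, hi]
    exact PresentedGroup.one_of_mem ⟨i, rfl⟩
  refine ⟨PresentedGroup.toGroup k1, ?_⟩
  have l1 : ∀ x, PresentedGroup.toGroup k1 (PresentedGroup.mk _ x) =
      PresentedGroup.mk (Set.range σ) (Φ x) := fun x => DFunLike.congr_fun e1 x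
  have l2 : ∀ x, PresentedGroup.toGroup k2 (PresentedGroup.mk _ x) =
      PresentedGroup.mk (Set.range ρ) (Ψ x) := fun x => DFunLike.congr_fun e2 x
  have hl : LeftInverse (PresentedGroup.toGroup k2) (PresentedGroup.toGroup k1) := by
    intro y
    obtain ⟨x, rfl⟩ := QuotientGroup.mk_surjective y
    have m1 := l1 x
    have m2 := l2 (Φ x)
    rw [h] at m2
    exact (congrArg _ m1).trans m2
  exact hl.injective

/-- For a contractible complex the boundary operator is onto. -/
lemma bdry_surj {V R : Type} (ρ : R → FreeGroup V) (hp : ∀ x : PresentedGroup (Set.range ρ), x = 1) :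
    Surjective (Finsupp.linearCombination ℤ fun r => (expSum V (ρ r)).toAdd) := by
  set B := Finsupp.linearCombination ℤ fun r => (expSum V (ρ r)).toAdd with hB
  let F : FreeGroup V →* Multiplicative ((V →₀ ℤ) ⧸ LinearMap.range B) :=
    (AddMonoidHom.toMultiplicative (LinearMap.range B).mkQ.toAddMonoidHom).comp (expSum V)
  have hF : ∀ x, F x = Multiplicative.ofAdd ((LinearMap.range B).mkQ (expSum V x).toAdd) :=
    fun x => rfl
  have e1 : FreeGroup.lift (fun v => F (FreeGroup.of v)) = F := by
    ext v
    simp
  have k : ∀ x ∈ Set.range ρ, FreeGroup.lift (fun v => F (FreeGroup.of v)) x = 1 := by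
    rintro _ ⟨r, rfl⟩
    rw [e1, hF]
    have : (LinearMap.range B).mkQ (expSum V (ρ r)).toAdd = 0 := by
      rw [Submodule.mkQ_apply, Submodule.Quotient.mk_eq_zero]
      refine ⟨Finsupp.single r 1, ?_⟩
      rw [hB, Finsupp.linearCombination_single, one_smul]
    rw [this]
    rfl
  have hs : ∀ v, Finsupp.single v 1 ∈ LinearMap.range B := by
    intro v
    have h1 := congrArg (PresentedGroup.toGroup k) (hp (PresentedGroup.of v))
    rw [map_one, PresentedGroup.toGroup.of, hF, expSum_of] at h1
    have h2 : (LinearMap.range B).mkQ (Finsupp.single v 1) = 0 := h1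
    rwa [Submodule.mkQ_apply, Submodule.Quotient.mk_eq_zero] at h2
  intro x
  have : x ∈ LinearMap.range B := by
    induction x using Finsupp.induction_linear with
    | zero => exact zero_mem _
    | add f g hf hg => exact add_mem hf hg
    | single v z =>
      have : Finsupp.single v z = z • Finsupp.single v (1 : ℤ) := by
        rw [Finsupp.smul_single, smul_eq_mul, mul_one]
      rw [this]
      exact Submodule.smul_mem _ _ (hs v)
  exact this

lemma expSum_killt {X : Type} (t : X) (x : FreeGroup X) :
    (expSum {v : X // v ≠ t} (killt t x)).toAdd =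
      Finsupp.lcomapDomain (M := ℤ) (R := ℤ) (Subtype.val : {v : X // v ≠ t} → X)
        Subtype.val_injective (expSum X x).toAdd := by
  have : (expSum {v : X // v ≠ t}).comp (killt t) =
      (AddMonoidHom.toMultiplicative (Finsupp.lcomapDomain (M := ℤ) (R := ℤ)
        (Subtype.val : {v : X // v ≠ t} → X) Subtype.val_injective).toAddMonoidHom).comp
        (expSum X) := by
    refine FreeGroup.ext_hom _ _ fun v => ?_
    rw [MonoidHom.comp_apply, MonoidHom.comp_apply]
    apply Multiplicative.toAdd.injective
    change _ = Finsupp.lcomapDomain (M := ℤ) (R := ℤ)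
        (Subtype.val : {v : X // v ≠ t} → X) Subtype.val_injective (expSum X (FreeGroup.of v)).toAdd
    rw [expSum_of, Finsupp.lcomapDomain_apply]
    by_cases hv : v = t
    · subst hv
      rw [killt_t, map_one]
      ext y
      rw [Finsupp.comapDomain_apply, Finsupp.single_eq_of_ne]
      · rfl
      · exact y.2
    · have h1 := killt_of t ⟨v, hv⟩
      simp only at h1
      rw [h1, expSum_of]
      exact (Finsupp.comapDomain_single _ (⟨v, hv⟩ : {v : X // v ≠ t}) (1 : ℤ) _).symm
  exact congrArg Multiplicative.toAdd (DFunLike.congr_fun this x)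

section final

variable {V R : Type} (ρ : R → FreeGroup V) (e : R) (t : V)

lemma base_pi (he : ρ e = FreeGroup.of t) (hp : ∀ x : PresentedGroup (Set.range ρ), x = 1)
    (σ : {r : R // r ≠ e} → FreeGroup {v : V // v ≠ t}) (hσ : ∀ r, σ r = killt t (ρ r.1)) :
    ∀ x : PresentedGroup (Set.range σ), x = 1 := by
  have e1 : FreeGroup.lift (fun a => PresentedGroup.mk (Set.range σ) (killt t (FreeGroup.of a))) =
      (PresentedGroup.mk (Set.range σ)).comp (killt t) := by
    ext a
    simp
  have k1 : ∀ x ∈ Set.range ρ,
      FreeGroup.lift (fun a => PresentedGroup.mk (Set.range σ) (killt t (FreeGroup.of a))) x = 1 := by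
    rintro _ ⟨r, rfl⟩
    rw [e1, MonoidHom.comp_apply]
    by_cases hr : r = e
    · subst hr
      rw [he, killt_t, map_one]
    · exact PresentedGroup.one_of_mem ⟨⟨r, hr⟩, hσ ⟨r, hr⟩⟩
  have hid : (MonoidHom.id (PresentedGroup (Set.range σ))) = 1 := by
    refine PresentedGroup.ext fun v => ?_
    have h1 := congrArg (PresentedGroup.toGroup k1) (hp (PresentedGroup.of v.1))
    rw [map_one, PresentedGroup.toGroup.of, killt_of] at h1
    exact h1
  intro x
  exact DFunLike.congr_fun hid x

lemma base_bdry (he : ρ e = FreeGroup.of t)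
    (hb : Injective (Finsupp.linearCombination ℤ fun r => (expSum V (ρ r)).toAdd))
    (σ : {r : R // r ≠ e} → FreeGroup {v : V // v ≠ t}) (hσ : ∀ r, σ r = killt t (ρ r.1)) :
    Injective (Finsupp.linearCombination ℤ fun r => (expSum _ (σ r)).toAdd) := by
  refine (injective_iff_map_eq_zero _).2 ?_
  intro c hc
  set B := Finsupp.linearCombination ℤ fun r => (expSum V (ρ r)).toAdd with hB
  have h1 : (fun r => (expSum _ (σ r)).toAdd) = fun r : {r : R // r ≠ e} =>
      Finsupp.lcomapDomain (M := ℤ) (R := ℤ) (Subtype.val : {v : V // v ≠ t} → V)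
        Subtype.val_injective (expSum V (ρ r.1)).toAdd := by
    funext r
    rw [hσ, expSum_killt]
  have h2 : Finsupp.lcomapDomain (M := ℤ) (R := ℤ) (Subtype.val : {v : V // v ≠ t} → V)
        Subtype.val_injective (B (Finsupp.mapDomain Subtype.val c)) = 0 := by
    rw [hB, Finsupp.linearCombination_mapDomain, Finsupp.apply_linearCombination, ← hc, h1]
    rfl
  have h3 : B (Finsupp.mapDomain Subtype.val c) =
      B (Finsupp.single e ((B (Finsupp.mapDomain Subtype.val c)) t)) := by
    generalize hx : B (Finsupp.mapDomain Subtype.val c) = x at h2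
    rw [hB, Finsupp.linearCombination_single, he, expSum_of, Finsupp.smul_single, smul_eq_mul,
      mul_one]
    ext v
    by_cases hv : v = t
    · subst hv
      rw [Finsupp.single_eq_same]
    · rw [Finsupp.single_eq_of_ne hv]
      have h4 := DFunLike.congr_fun h2 (⟨v, hv⟩ : {v : V // v ≠ t})
      rw [Finsupp.lcomapDomain_apply, Finsupp.comapDomain_apply] at h4
      exact h4
  have h5 := hb h3
  have h6 : (Finsupp.mapDomain Subtype.val c) e = 0 := by
    refine Finsupp.mapDomain_of_notMem_range _ _ ?_
    simp
  rw [h5, Finsupp.single_eq_same] at h6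
  rw [h6, Finsupp.single_zero] at h5
  refine Finsupp.mapDomain_injective Subtype.val_injective ?_
  rw [h5, Finsupp.mapDomain_zero]

end final

theorem t_EXH : S_EXH := by
  classical
  intro L e hL hfin
  obtain ⟨hc, t, ht⟩ := hL
  have hfV := hfin.1
  have hfR := hfin.2
  have hsurj := bdry_surj L.r hc.pi_eq_one
  have hinj : Injective (Finsupp.linearCombination ℤ fun r => (expSum L.V (L.r r)).toAdd) :=
    hc.bdry_inj
  set B := Finsupp.linearCombination ℤ fun r => (expSum L.V (L.r r)).toAdd with hB
  let E := LinearEquiv.ofBijective B ⟨hinj, hsurj⟩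
  let δ : (L.V →₀ ℤ) →ₗ[ℤ] ℤ := (Finsupp.lapply e).comp E.symm.toLinearMap
  have hδ : ∀ c, δ (B c) = c e := by
    intro c
    have : E.symm (B c) = c := LinearEquiv.ofBijective_symm_apply_apply B c
    change (E.symm (B c)) e = c e
    rw [this]
  have hδr : ∀ r, δ (expSum L.V (L.r r)).toAdd = Finsupp.single r 1 e := by
    intro r
    have : (expSum L.V (L.r r)).toAdd = B (Finsupp.single r 1) := by
      rw [hB, Finsupp.linearCombination_single, one_smul]
    rw [this, hδ]
  let d : L.V → ℤ := fun v => δ (Finsupp.single v 1)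
  have hd : d t = 1 := by
    have h1 := hδr e
    rw [ht, expSum_of, Finsupp.single_eq_same] at h1
    exact h1
  let q : {r : L.R // r ≠ e} → List (({v : L.V // v ≠ t} × Bool) × ℤ) :=
    fun r => dec t d 0 (L.r r.1).toWord
  have hw : ∀ r, FreeGroup.mk ((q r).map Prod.fst) = killt t (L.r r.1) := by
    intro r
    rw [dec_fst, FreeGroup.mk_toWord]
  have hl : ∀ r, liftWord (fun r => (q r).map Prod.fst) (expo q) r = subst t d (L.r r.1) := by
    intro r
    have h1 := dec_prod t d hd 0 (L.r r.1).toWord
    rw [deg_eq d δ (fun _ => rfl), FreeGroup.mk_toWord, hδr, Finsupp.single_eq_of_ne r.2.symm,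
      zpow_zero, one_mul, add_zero, zpow_zero, mul_one] at h1
    rw [liftWord_expo, h1]
  obtain ⟨f, hf⟩ := exists_embedding (L.del e).r
    ((lift (fun r => (q r).map Prod.fst) (expo q)).del none).r (subst t d) (unsubst t d)
    (unsubst_subst t d) (fun i => ⟨⟨some i, Option.some_ne_none i⟩, (hl i).symm⟩) (by
      rintro ⟨j, hj⟩
      cases j with
      | none => exact absurd rfl hj
      | some j =>
        refine ⟨j, ?_⟩
        refine Eq.trans ?_ (unsubst_subst t d (L.r j.1))
        rw [← hl]
        rfl)
  exact ⟨{v : L.V // v ≠ t}, {r : L.R // r ≠ e}, inferInstance, inferInstance,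
    fun r => (q r).map Prod.fst, expo q, f,
    ⟨base_pi L.r e t ht hc.pi_eq_one _ hw, base_bdry L.r e t ht hc.bdry_inj _ hw⟩, hf⟩

end Pool.Agent.H18LI
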