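import Pool.Agent.H18LI.Stm

/-!
# Piece ISO (isolation lemma) of project H18LI
-/

set_option autoImplicit false
set_option linter.unusedSectionVars false

namespace Pool.Agent.H18LI

open Function Pool.Agent.R655.LI
open scoped Classical

namespace ISO

variable {P R : Type} [Fintype P] [Fintype R] {N : ℕ}

/-- `q` has minimal weight -/
def Mn (Sel : Set (R → P)) (h : P → Fin N) (q : R → P) : Prop :=
  ∀ q' ∈ Sel, ∑ r, (h (q r) : ℕ) ≤ ∑ r, (h (q' r) : ℕ)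

/-- the functions for which `p` is ambiguous -/
def Bad (Sel : Set (R → P)) (p : P) : Set (P → Fin N) :=
  {h | ∃ q₁ ∈ Sel, ∃ q₂ ∈ Sel, Mn Sel h q₁ ∧ Mn Sel h q₂ ∧ (∃ r, q₁ r = p) ∧ ∀ r, q₂ r ≠ p}

theorem bad_aux (Sel : Set (R → P)) (p : P) {h h' : P → Fin N} (hb : h ∈ Bad Sel p)
    (hb' : h' ∈ Bad Sel p) (hag : ∀ x, x ≠ p → h x = h' x) (hlt : (h p : ℕ) < h' p) : False := by
  obtain ⟨q₁, hq₁, q₂, hq₂, m₁, m₂, -, hn⟩ := hb
  obtain ⟨q₁', hq₁', q₂', hq₂', m₁', m₂', ⟨r', hr'⟩, -⟩ := hb'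
  have e1 : ∑ r, (h' (q₂ r) : ℕ) = ∑ r, (h (q₂ r) : ℕ) :=
    Finset.sum_congr rfl fun r _ => by rw [hag _ (hn r)]
  have e2 : ∑ r, (h (q₂ r) : ℕ) ≤ ∑ r, (h (q₁' r) : ℕ) := m₂ _ hq₁'
  have e3 : ∑ r, (h (q₁' r) : ℕ) < ∑ r, (h' (q₁' r) : ℕ) := by
    refine Finset.sum_lt_sum (fun r _ => ?_) ⟨r', Finset.mem_univ _, ?_⟩
    · by_cases hx : q₁' r = p
      · rw [hx]
        exact hlt.le
      · rw [hag _ hx]
    · rw [hr']
      exact hlt
  have e4 : ∑ r, (h' (q₁' r) : ℕ) ≤ ∑ r, (h' (q₂ r) : ℕ) := m₁' _ hq₂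
  omega

theorem bad_inj (Sel : Set (R → P)) (p : P) {h h' : P → Fin N} (hb : h ∈ Bad Sel p)
    (hb' : h' ∈ Bad Sel p) (hag : ∀ x, x ≠ p → h x = h' x) : h = h' := by
  have hp : h p = h' p := by
    rcases lt_trichotomy (h p : ℕ) (h' p) with hlt | heq | hgt
    · exact (bad_aux Sel p hb hb' hag hlt).elim
    · exact Fin.ext heq
    · exact (bad_aux Sel p hb' hb (fun x hx => (hag x hx).symm) hgt).elim
  funext x
  by_cases hx : x = p
  · rw [hx, hp]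
  · exact hag x hx

theorem bad_card (Sel : Set (R → P)) (p : P) :
    (Bad Sel p : Set (P → Fin N)).ncard * N ≤ N ^ Fintype.card P := by
  set B : Set (P → Fin N) := Bad Sel p with hB
  have h1 : Nat.card (↥B × Fin N) ≤ Nat.card (P → Fin N) := by
    refine Nat.card_le_card_of_injective
      (fun x : ↥B × Fin N => update (x.1 : P → Fin N) p x.2) ?_
    rintro ⟨⟨h, hh⟩, a⟩ ⟨⟨h', hh'⟩, a'⟩ he
    simp only at he
    have ha : a = a' := by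
      have := congrFun he p
      simpa using this
    have hag : ∀ x, x ≠ p → h x = h' x := by
      intro x hx
      have := congrFun he x
      rwa [update_of_ne hx, update_of_ne hx] at this
    have := bad_inj Sel p hh hh' hag
    subst this
    subst ha
    rfl
  rw [Nat.card_prod, Nat.card_coe_set_eq, Nat.card_eq_fintype_card, Nat.card_eq_fintype_card,
    Fintype.card_fin, Fintype.card_fun, Fintype.card_fin] at h1
  exact h1

end ISO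

open ISO in
/-- **Piece ISO** -/
theorem t_ISO : S_ISO := by
  intro P R _ _ row N Sel hSel
  have hsub : {h : P → Fin N | ∃ q₁ ∈ Sel, ∃ q₂ ∈ Sel, q₁ ≠ q₂ ∧
      (∀ q ∈ Sel, ∑ r, (h (q₁ r) : ℕ) ≤ ∑ r, (h (q r) : ℕ)) ∧
      (∀ q ∈ Sel, ∑ r, (h (q₂ r) : ℕ) ≤ ∑ r, (h (q r) : ℕ))} ⊆ ⋃ p, Bad Sel p := by
    rintro h ⟨q₁, hq₁, q₂, hq₂, hne, m₁, m₂⟩
    obtain ⟨r, hr⟩ := Function.ne_iff.mp hne
    refine Set.mem_iUnion.mpr ⟨q₁ r, q₁, hq₁, q₂, hq₂, m₁, m₂, ⟨r, rfl⟩, fun r' hr' => ?_⟩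
    have h1 := hSel q₂ hq₂ r'
    rw [hr', hSel q₁ hq₁ r] at h1
    subst h1
    exact hr hr'.symm
  have h1 : ({h : P → Fin N | ∃ q₁ ∈ Sel, ∃ q₂ ∈ Sel, q₁ ≠ q₂ ∧
      (∀ q ∈ Sel, ∑ r, (h (q₁ r) : ℕ) ≤ ∑ r, (h (q r) : ℕ)) ∧
      (∀ q ∈ Sel, ∑ r, (h (q₂ r) : ℕ) ≤ ∑ r, (h (q r) : ℕ))}).ncard ≤
      (⋃ p, Bad Sel p : Set (P → Fin N)).ncard := Set.ncard_le_ncard hsub (Set.toFinite _)
  have h2 : (⋃ p, Bad Sel p : Set (P → Fin N)).ncard ≤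
      ∑ p, (Bad Sel p : Set (P → Fin N)).ncard := by
    have h3 := Set.ncard_iUnion_le_of_fintype (fun p => (Bad Sel p : Set (P → Fin N)))
    exact h3
  calc _ ≤ (∑ p, (Bad Sel p : Set (P → Fin N)).ncard) * N :=
        Nat.mul_le_mul_right N (h1.trans h2)
    _ = ∑ p, (Bad Sel p : Set (P → Fin N)).ncard * N := Finset.sum_mul _ _ _
    _ ≤ ∑ _p : P, N ^ Fintype.card P := Finset.sum_le_sum fun p _ => bad_card Sel p
    _ = Fintype.card P * N ^ Fintype.card P := by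
      rw [Finset.sum_const, Finset.card_univ, smul_eq_mul]

end Pool.Agent.H18LI
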