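import Pool.Agent.H18LI.SUB

/-!
# Assembly
-/

set_option autoImplicit false

namespace Pool.Agent.H18LI

open Function Pool.Agent.R655.LI

section

variable {V R : Type}

theorem letter_mem_away {X : Type} {x y : X} (b : Bool) (h : y ≠ x) : letter y b ∈ Away x := by
  have h1 : FreeGroup.of y ∈ Away x := Subgroup.subset_closure ⟨y, h, rfl⟩
  cases b with
  | true => exact h1
  | false => rw [eletter_false]; exact Subgroup.inv_mem _ h1

/-- a product over `List.ofFn` all of whose factors but one lie in a subgroup -/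
theorem split_ofFn {G : Type} [Group G] (A : Subgroup G) {n : ℕ} (f : Fin n → G) (k : Fin n)
    (hf : ∀ j, j ≠ k → f j ∈ A) : ∃ u ∈ A, ∃ v ∈ A, (List.ofFn f).prod = u * f k * v := by
  have hk : (k : ℕ) < (List.ofFn f).length := by rw [List.length_ofFn]; exact k.2
  refine ⟨((List.ofFn f).take k).prod, ?_, ((List.ofFn f).drop (k + 1)).prod, ?_, ?_⟩
  · refine Subgroup.list_prod_mem _ fun x hx => ?_
    obtain ⟨j, hj, rfl⟩ := List.mem_take_iff_getElem.1 hx
    rw [List.getElem_ofFn]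
    refine hf _ fun h => ?_
    have := congrArg Fin.val h
    simp only at this
    omega
  · refine Subgroup.list_prod_mem _ fun x hx => ?_
    obtain ⟨j, hj, rfl⟩ := List.mem_drop_iff_getElem.1 hx
    rw [List.getElem_ofFn]
    refine hf _ fun h => ?_
    have := congrArg Fin.val h
    simp only at this
    omega
  · conv_lhs => rw [← List.take_append_drop (k : ℕ) (List.ofFn f)]
    rw [List.prod_append, List.drop_eq_getElem_cons hk, List.prod_cons, List.getElem_ofFn, mul_assoc]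

theorem ofFn_mem {G : Type} [Group G] (A : Subgroup G) {n : ℕ} (f : Fin n → G)
    (hf : ∀ j, f j ∈ A) : (List.ofFn f).prod ∈ A := by
  refine Subgroup.list_prod_mem _ fun x hx => ?_
  obtain ⟨j, rfl⟩ := (List.mem_ofFn' _ _).1 hx
  exact hf j

/-- the main step: a unique minimal selection -/
theorem li_of_unique (hW : S_WALK) [Fintype R] (w : R → List (V × Bool)) (h : Pos w → ℤ)
    (q : R → Pos w) (hq : ∀ r, (q r).1 = r) (hinj : Injective (gen w ∘ q))
    (hmin : ∀ q' : R → Pos w, (∀ r, (q' r).1 = r) → Injective (gen w ∘ q') → q' ≠ q →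
      ∑ r, h (q r) < ∑ r, h (q' r)) (S : Set R) :
    LocInd (PresentedGroup (Set.range fun r : S => liftWord w h r)) := by
  classical
  refine t_COV V R w h S ?_
  refine t_ELIM (S × ℤ) (V × ℤ) (fun i => shiftWord w h i.1 i.2)
    (fun i => (gen w (q i.1), h (q i.1) + i.2)) ?_
  intro D hD
  obtain ⟨d, hd, hd'⟩ := hW (Pos w) R V Sigma.fst (gen w) h q hq hinj hmin
    (D.image fun i => ((i.1 : R), i.2)) (hD.image _)
  obtain ⟨i, hi, rfl⟩ := Finset.mem_image.1 hd
  have key : ∀ j ∈ D, ∀ k : Fin (w j.1).length,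
      (gen w ⟨j.1, k⟩, h ⟨j.1, k⟩ + j.2) = (gen w (q i.1), h (q i.1) + i.2) →
      j = i ∧ (⟨j.1, k⟩ : Pos w) = q i.1 := by
    intro j hj k hk
    obtain ⟨g1, g2⟩ := Prod.mk_inj.1 hk
    obtain ⟨e1, e2⟩ := hd' (j.1, j.2) (Finset.mem_image_of_mem _ hj) ⟨j.1, k⟩ rfl g1 g2
    obtain ⟨f1, f2⟩ := Prod.mk_inj.1 e1
    exact ⟨Prod.ext (Subtype.ext f1) f2, e2⟩
  refine ⟨i, hi, ?_, ?_⟩
  · obtain ⟨k, hk⟩ : ∃ k : Fin (w i.1).length, q i.1 = ⟨i.1, k⟩ := by
      have h1 := hq i.1
      generalize q i.1 = p at h1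
      obtain ⟨r, k⟩ := p
      simp only at h1
      subst h1
      exact ⟨k, rfl⟩
    obtain ⟨u, hu, v, hv, e⟩ := split_ofFn (Away (gen w (q i.1), h (q i.1) + i.2))
      (fun k : Fin (w i.1).length => letter (gen w ⟨i.1, k⟩, h ⟨i.1, k⟩ + i.2) (sgn w ⟨i.1, k⟩)) k
      (by
        intro j hj
        refine letter_mem_away _ fun h1 => hj ?_
        obtain ⟨_, h2⟩ := key i hi j h1
        rw [hk] at h2
        exact eq_of_heq (Sigma.mk.inj_iff.1 h2).2)
    refine ⟨u, hu, v, hv, sgn w ⟨i.1, k⟩, ?_⟩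
    rw [shiftWord, e, hk]
  · intro j hj hji
    refine ofFn_mem _ _ fun k => letter_mem_away _ fun h1 => hji (key j hj k h1).1

/-- for all but few `h` all the groups are locally indicable -/
theorem count (hI : S_ISO) (hW : S_WALK) (hH : S_HALL) [Finite V] [Fintype R]
    (w : R → List (V × Bool)) (hC : (base w).Contractible) (N : ℕ) :
    {h : Pos w → Fin N | ¬ ∀ (K : Cx) (_ : Sub K ((lift w fun p => ((h p : ℕ) : ℤ)).del none)),
      LocInd K.Pi}.ncard * N ≤ (∑ r, (w r).length) * N ^ (∑ r, (w r).length) := by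
  classical
  have hcard : Fintype.card (Pos w) = ∑ r, (w r).length := by
    rw [Fintype.card_sigma]
    exact Finset.sum_congr rfl fun r _ => Fintype.card_fin _
  let Sel : Set (R → Pos w) := {q | (∀ r, (q r).1 = r) ∧ Injective (gen w ∘ q)}
  have h1 := hI (Pos w) R Sigma.fst N Sel (fun q hq => hq.1)
  rw [hcard] at h1
  refine le_trans (Nat.mul_le_mul_right N (Set.ncard_le_ncard ?_ (Set.toFinite _))) h1
  intro h hh
  by_contra hgood
  apply hh
  intro K s
  obtain ⟨q₀, hq₀, hq₀'⟩ := hH V R w hC.bdry_inj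
  have hne : Sel.Nonempty := ⟨q₀, hq₀, hq₀'⟩
  obtain ⟨q, hq, hqmin⟩ := Set.exists_min_image Sel (fun q => ∑ r, (h (q r) : ℕ))
    (Set.toFinite _) hne
  refine t_SUB V R w _ (fun S => li_of_unique hW w _ q hq.1 hq.2 ?_ S) K s
  intro q' hq1 hq2 hne'
  have hlt : ∑ r, (h (q r) : ℕ) < ∑ r, (h (q' r) : ℕ) := by
    by_contra hle
    push Not at hle
    exact hgood ⟨q, hq, q', ⟨hq1, hq2⟩, Ne.symm hne', hqmin, fun q'' hq'' =>
      hle.trans (hqmin q'' hq'')⟩
  exact_mod_cast hlt

/-- Q1 for finite complexes is the statement that there are no exceptions -/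
theorem equivalence (hC : S_CONTR) (hE : S_EXH) :
    Question Cx.IsFin ↔ ∀ (V R : Type) [Finite V] [Finite R] (w : R → List (V × Bool)),
      (base w).Contractible → ∀ h : Pos w → ℤ, LocInd ((lift w h).del none).Pi := by
  constructor
  · intro hQ V R _ _ w hw h
    exact hQ _ _ (delSub (lift w h) none) (hC V R w h hw).1
      ⟨inferInstanceAs (Finite (Option V)), inferInstanceAs (Finite (Option R))⟩
  · intro hA
    rw [equiv _ (fun _ _ h => h)]
    intro L e hL hfin _ _ hN
    obtain ⟨V, R, _, _, w, h, f, hw, hf⟩ := hE L e hL hfin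
    refine ⟨(L.del e).Pi, inferInstance, (NN L e).subtype,
      locInd_of_injective (hA V R w hw h) f hf, ?_⟩
    intro h1
    refine hN ((Subgroup.eq_bot_iff_forall _).2 fun x hx => ?_)
    exact DFunLike.congr_fun h1 (⟨x, hx⟩ : NN L e)

end

end Pool.Agent.H18LI
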