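import Pool.Agent.H18LI.COV

/-!
# Subcomplexes
-/

set_option autoImplicit false

namespace Pool.Agent.H18LI

open Function Pool.Agent.R655.LI

theorem locInd_retract (K : Cx) {A I : Type} (v : K.V → A) (hv : Injective v)
    (ρ : I → FreeGroup A) (hj : ∀ j, ∃ i, FreeGroup.map v (K.r j) = ρ i)
    (hi : ∀ i, ∃ j, FreeGroup.map v (K.r j) = ρ i) (hL : LocInd (PresentedGroup (Set.range ρ))) :
    LocInd K.Pi := by
  classical
  let f : K.Pi →* PresentedGroup (Set.range ρ) := PresentedGroup.toGroup
    (f := fun x => (PresentedGroup.of (v x) : PresentedGroup (Set.range ρ))) (by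
      rintro _ ⟨j, rfl⟩
      obtain ⟨i, e⟩ := hj j
      have h1 : FreeGroup.lift (fun x => (PresentedGroup.of (v x) :
          PresentedGroup (Set.range ρ))) = (PresentedGroup.mk _).comp (FreeGroup.map v) := by
        ext x
        rw [MonoidHom.comp_apply, FreeGroup.map.of, FreeGroup.lift_apply_of]
        rfl
      rw [h1, MonoidHom.comp_apply, e]
      exact PresentedGroup.one_of_mem ⟨i, rfl⟩)
  let g0 : A → K.Pi := fun o => if ho : ∃ x, v x = o then
    PresentedGroup.of ho.choose else 1
  have hg0 : ∀ x, g0 (v x) = PresentedGroup.of x := by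
    intro x
    have ho : ∃ x', v x' = v x := ⟨x, rfl⟩
    have : ho.choose = x := hv ho.choose_spec
    show (if ho : ∃ x', v x' = v x then
      (PresentedGroup.of ho.choose : K.Pi) else 1) = _
    rw [dif_pos ho, this]
  have hg1 : (FreeGroup.lift g0).comp (FreeGroup.map v) = PresentedGroup.mk (Set.range K.r) := by
    ext x
    rw [MonoidHom.comp_apply, FreeGroup.map.of, FreeGroup.lift_apply_of]
    exact hg0 x
  let g : PresentedGroup (Set.range ρ) →* K.Pi := PresentedGroup.toGroup (f := g0) (by
    rintro _ ⟨i, rfl⟩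
    obtain ⟨j, e⟩ := hi i
    rw [← e]
    have := DFunLike.congr_fun hg1 (K.r j)
    refine Eq.trans this ?_
    exact PresentedGroup.one_of_mem ⟨j, rfl⟩)
  refine locInd_of_injective hL f (LeftInverse.injective (g := g) ?_)
  intro x
  have h1 : g.comp f = MonoidHom.id _ := by
    refine PresentedGroup.ext fun x => ?_
    rw [MonoidHom.comp_apply]
    have h2 : f (PresentedGroup.of x) = PresentedGroup.of (v x) :=
      PresentedGroup.toGroup.of _
    have h3 : g (PresentedGroup.of (v x)) = g0 (v x) :=
      PresentedGroup.toGroup.of _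
    rw [h2, h3, hg0]
    rfl
  exact DFunLike.congr_fun h1 x

theorem t_SUB : S_SUB := by
  classical
  intro V R w h hS K s
  let S : Set R := {r | ∃ j, (s.c j).1 = some r}
  refine locInd_retract K (A := Option V) (fun x => s.v x) s.v.injective
    (fun r : S => liftWord w h r) ?_ ?_ (hS S)
  · intro j
    obtain ⟨r, hr⟩ := Option.ne_none_iff_exists'.1 (s.c j).2
    refine ⟨⟨r, j, hr⟩, ?_⟩
    refine (s.comm j).trans ?_
    show (lift w h).r (s.c j).1 = _
    rw [hr]
    rfl
  · rintro ⟨r, j, hr⟩
    refine ⟨j, ?_⟩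
    refine (s.comm j).trans ?_
    show (lift w h).r (s.c j).1 = _
    rw [hr]
    rfl

end Pool.Agent.H18LI
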