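import Pool.Agent.R655.LI.Main

/-!
# MP_cf50d6_gt: random homotopies of the attaching maps across the removed 2-cell

Definitions and the exact statements of the pieces (project H18LI, helper18). Every piece is a `Prop`
`S_X`; prove `theorem t_X : S_X` in `Pool/Agent/H18LI/X.lean`, namespace `Pool.Agent.H18LI`.
-/

set_option autoImplicit false

namespace Pool.Agent.H18LI

open Function Pool.Agent.R655.LI

/-- the letter `x` or `x⁻¹` of a free group -/
def letter {X : Type} (x : X) (b : Bool) : FreeGroup X := FreeGroup.mk [(x, b)]

/-- the occurrences of letters in the attaching words `w` -/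
abbrev Pos {V R : Type} (w : R → List (V × Bool)) : Type := Σ r : R, Fin (w r).length

/-- the 1-cell of an occurrence -/
def gen {V R : Type} (w : R → List (V × Bool)) (p : Pos w) : V := ((w p.1).get p.2).1

/-- the sign of an occurrence -/
def sgn {V R : Type} (w : R → List (V × Bool)) (p : Pos w) : Bool := ((w p.1).get p.2).2

/-- the complex with one vertex, 1-cells `V`, 2-cells `R` and attaching words `w` -/
def base {V R : Type} (w : R → List (V × Bool)) : Cx := ⟨V, R, fun r => FreeGroup.mk (w r)⟩

/-- the word `w r` with every letter `x^±` at the occurrence `p` replaced by `t^(h p) x^± t^(-h p)`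
(the new letter `t` is `none`) -/
def liftWord {V R : Type} (w : R → List (V × Bool)) (h : Pos w → ℤ) (r : R) :
    FreeGroup (Option V) :=
  (List.ofFn fun k : Fin (w r).length =>
    FreeGroup.of none ^ h ⟨r, k⟩ * letter (some (gen w ⟨r, k⟩)) (sgn w ⟨r, k⟩) *
      FreeGroup.of none ^ (-h ⟨r, k⟩)).prod

/-- the complex `L^h`: a new 1-cell `t = none`, a new 2-cell `e = none` attached along `t`, and the
attaching words of the other 2-cells changed as in `liftWord` (a homotopy across `e`) -/
def lift {V R : Type} (w : R → List (V × Bool)) (h : Pos w → ℤ) : Cx :=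
  ⟨Option V, Option R, fun r => r.elim (FreeGroup.of none) (liftWord w h)⟩

/-- the subgroup generated by the letters different from `x` -/
def Away {X : Type} (x : X) : Subgroup (FreeGroup X) :=
  Subgroup.closure {y | ∃ z, z ≠ x ∧ y = FreeGroup.of z}

/-- Piece ISO (isolation lemma of Mulmuley-Vazirani-Vazirani). `P` = occurrences, `row p` = its word,
`Sel` = a set of selections `q : R → P` of one occurrence from every word; the weight of `q` is
`∑ r, h (q r)`. For all but at most `|P| N ^ (|P| - 1)` of the `N ^ |P|` functions `h : P → Fin N` a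
selection of minimal weight is unique.
Proof: if `q₁ ≠ q₂` are both minimal there is `p = q₁ r ≠ q₂ r` used by `q₁` and not by `q₂`, so `h` is
in `Bad p = {h | some minimal selection uses p and some minimal selection does not use p}`. Two members
`h`, `h'` of `Bad p` that agree outside `p` are equal (if `h p < h' p`: with `q₁` using `p`, `q₂` not,
both minimal for `h`, `q₁'`, `q₂'` for `h'`: `W' q₂ = W q₂ = W q₁ ≤ W q₁' < W' q₁' = W' q₂' ≤ W' q₂`);
so `|Bad p| ≤ N ^ (|P| - 1)`, i.e. `|Bad p| * N ≤ N ^ |P|`. -/
def S_ISO : Prop :=
  ∀ (P R : Type) [Fintype P] [Fintype R] (row : P → R) (N : ℕ) (Sel : Set (R → P)),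
    (∀ q ∈ Sel, ∀ r, row (q r) = r) →
    {h : P → Fin N | ∃ q₁ ∈ Sel, ∃ q₂ ∈ Sel, q₁ ≠ q₂ ∧
      (∀ q ∈ Sel, ∑ r, (h (q₁ r) : ℕ) ≤ ∑ r, (h (q r) : ℕ)) ∧
      (∀ q ∈ Sel, ∑ r, (h (q₂ r) : ℕ) ≤ ∑ r, (h (q r) : ℕ))}.ncard * N ≤
    Fintype.card P * N ^ Fintype.card P

/-- Piece WALK. Let `q` be the unique selection of minimal weight (among the selections whose 1-cells
`g (q r)` are distinct). Then every finite nonempty set `D` of pairs `(r, n)` (the `n`-th translate of
the word `r`) has a member `d` whose selected letter `(g (q d.1), h (q d.1) + d.2)` occurs nowhere else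
in the members of `D`.
Proof. (1) Claim: let `k ≥ 1` and `a : ℕ → P` with `row (a k) = row (a 0)` and, for `t < k`,
`g (a (t+1)) = g (q (row (a t)))`, `a (t+1) ≠ q (row (a (t+1)))`. Then
`0 < ∑ t in range k, (h (a (t+1)) - h (q (row (a t))))`. Strong induction on `k`: if the rows of
`a 0, ..., a (k-1)` are distinct, let `q' (row (a (t+1))) = a (t+1)` and `q' = q` elsewhere; the 1-cells of
`q'` are those of `q` composed with a permutation of the rows, so distinct, `q' ≠ q`, and the weight of
`q'` minus the weight of `q` is the sum. If `row (a x) = row (a y)`, `x < y < k`, split into the closed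
walks `a (x + ·)` of length `y - x` and `a 0..x, a (y+1) .. a k` of length `k - (y - x)`.
(2) If the statement fails for `D`, every `(r, n)` in `D` has `(r', n')` in `D` and `p'` with
`row p' = r'`, `g p' = g (q r)`, `h p' + n' = h (q r) + n`, not (`(r', n') = (r, n)` and `p' = q r`); then
`p' ≠ q r'` (else `g (q r') = g (q r)` gives `r' = r`, `n' = n`). Iterating and using that `D` is finite
one gets a closed walk whose sum is `∑ (n_t - n_{t+1}) = 0`, contradiction. -/
def S_WALK : Prop :=
  ∀ (P R V : Type) [Fintype R] (row : P → R) (g : P → V) (h : P → ℤ) (q : R → P),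
    (∀ r, row (q r) = r) → Injective (g ∘ q) →
    (∀ q' : R → P, (∀ r, row (q' r) = r) → Injective (g ∘ q') → q' ≠ q →
      ∑ r, h (q r) < ∑ r, h (q' r)) →
    ∀ D : Finset (R × ℤ), D.Nonempty →
      ∃ d ∈ D, ∀ d' ∈ D, ∀ p', row p' = d'.1 → g p' = g (q d.1) →
        h p' + d'.2 = h (q d.1) + d.2 → d' = d ∧ p' = q d.1

/-- Piece HALL. If the cellular boundary operator of the complex is injective and there are finitely
many cells, one can select one occurrence from every word such that the 1-cells are distinct.
Proof: Hall (`Finset.all_card_le_biUnion_card_iff_exists_injective`) for the finite sets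
`T r` of the 1-cells occurring in `w r`: for a finite set `S` of 2-cells the chains supported on `S` are
mapped injectively to chains supported on `⋃ T r` (the support of `expSum V (FreeGroup.mk (w r))` is
contained in `T r`), so `|S| ≤ |⋃ T r|` (rank of free abelian groups / linear independence over `ℚ`). -/
def S_HALL : Prop :=
  ∀ (V R : Type) [Finite V] [Finite R] (w : R → List (V × Bool)),
    Injective (base w).bdry →
    ∃ q : R → Pos w, (∀ r, (q r).1 = r) ∧ Injective (fun r => gen w (q r))

/-- Piece ELIM. Let `ρ i` be relators with letters `x i` such that every finite nonempty set `D` of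
indices has an `i` such that the letter `x i` occurs exactly once in `ρ i` and in no other `ρ j`,
`j ∈ D`. Then the presented group is locally indicable. -/
def S_ELIM : Prop :=
  ∀ (I X : Type) (ρ : I → FreeGroup X) (x : I → X),
    (∀ D : Finset I, D.Nonempty → ∃ i ∈ D,
      (∃ u ∈ Away (x i), ∃ v ∈ Away (x i), ∃ b, ρ i = u * letter (x i) b * v) ∧
      ∀ j ∈ D, j ≠ i → ρ j ∈ Away (x i)) →
    LocInd (PresentedGroup (Set.range ρ))

/-- the `n`-th translate of the word `w r` in the letters `(x, m)` (`= t^m x t^(-m)`) -/
def shiftWord {V R : Type} (w : R → List (V × Bool)) (h : Pos w → ℤ) (r : R) (n : ℤ) :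
    FreeGroup (V × ℤ) :=
  (List.ofFn fun k : Fin (w r).length =>
    letter (gen w ⟨r, k⟩, h ⟨r, k⟩ + n) (sgn w ⟨r, k⟩)).prod

/-- Piece COV. If the group with generators `(x, m)` and relators all translates of the words of the
2-cells in `S` is locally indicable, so is the group of the complex with the 2-cells `S`.
Proof: the latter embeds into the semidirect product of the former with `ℤ`. -/
def S_COV : Prop :=
  ∀ (V R : Type) (w : R → List (V × Bool)) (h : Pos w → ℤ) (S : Set R),
    LocInd (PresentedGroup (Set.range fun i : S × ℤ => shiftWord w h i.1 i.2)) →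
    LocInd (PresentedGroup (Set.range fun r : S => liftWord w h r))

/-- Piece SUB. A subcomplex `K` of `L^h - e` has the same 2-cells as a subcomplex with all the
1-cells, and its group is a retract of the group of the latter. -/
def S_SUB : Prop :=
  ∀ (V R : Type) (w : R → List (V × Bool)) (h : Pos w → ℤ),
    (∀ S : Set R, LocInd (PresentedGroup (Set.range fun r : S => liftWord w h r))) →
    ∀ (K : Cx) (_ : Sub K ((lift w h).del none)), LocInd K.Pi

/-- Piece CONTR. `L^h` is contractible if `L` is. -/
def S_CONTR : Prop :=
  ∀ (V R : Type) (w : R → List (V × Bool)) (h : Pos w → ℤ),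
    (base w).Contractible → OneCell (lift w h) none

/-- Piece EXH. Every finite contractible `L` with a 2-cell `e` attached along a 1-cell `t` is, up to the
change of generators `x ↦ x t^(d x)`, one of the complexes `L₀^h`, so `π₁(L - e)` embeds in the group of
some `L₀^h - e`.
Proof. `V₀ = {v ≠ t}`, `R₀ = {r ≠ e}`, `w r` = the word of `L.r r` (e.g. `FreeGroup.toWord`) without the
letters `t`; `L₀ = base w` is contractible (`π₁(L₀)` is the group of `L` as `t` is killed by `e`; the
boundary operator of `L₀` is that of `L` modulo `t`; if it kills `c` then `L.bdry c` is a multiple of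
`L.bdry e`, so `c = 0`). `L.bdry` is onto (the group is trivial, hence its abelianization), so bijective,
and the degree `d : ℤ[L.V] → ℤ`, `d c` = the coefficient of `e` in `L.bdry⁻¹ c`, has `d t = 1` and
`d (L.bdry r) = 0` for `r ≠ e`. With `x = y t^(d x)` for `x ≠ t` a word of total degree 0 in `x`, `t`
becomes a product of `t^m y^± t^(-m)` (`m` = the degree of the initial segment for `y`, and for `y⁻¹` the
degree of the initial segment together with the letter). -/
def S_EXH : Prop :=
  ∀ (L : Cx) (e : L.R), OneCell L e → L.IsFin →
    ∃ (V R : Type) (_ : Finite V) (_ : Finite R) (w : R → List (V × Bool)) (h : Pos w → ℤ)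
      (f : (L.del e).Pi →* ((lift w h).del none).Pi), (base w).Contractible ∧ Injective f

end Pool.Agent.H18LI
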